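import Pool.Agent.MP_fcd29e_an.H11.CS

/-!
The generalised Fermat curve.
-/

set_option autoImplicit false

open Complex Set Filter Topology Metric

namespace Pool.Agent.MP_fcd29e_an.H11

noncomputable section

variable {α : Type} [Fintype α] [DecidableEq α]

/-- The cone over the curve. -/
def FY (n : ℕ) (τ : α → ℂ) : Set (α → ℂ) := {x | x ≠ 0 ∧ ∃ u v : ℂ, ∀ a, x a ^ n = v - τ a * u}

/-- Interpolation coefficients. -/
def lm (τ : α → ℂ) (a b c : α) : ℂ := (τ b - τ c) / (τ b - τ a)

omit [Fintype α] [DecidableEq α] in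
theorem lm_eq {τ : α → ℂ} {a b : α} (h : τ b - τ a ≠ 0) (c : α) (u v : ℂ) :
    v - τ c * u = lm τ a b c * (v - τ a * u) + (1 - lm τ a b c) * (v - τ b * u) := by
  unfold lm
  field_simp
  ring

omit [Fintype α] [DecidableEq α] in
theorem mem_FY {n : ℕ} {τ : α → ℂ} {a b : α} (h : τ b - τ a ≠ 0) (x : α → ℂ) :
    (∃ u v : ℂ, ∀ c, x c ^ n = v - τ c * u) ↔
      ∀ c, x c ^ n = lm τ a b c * x a ^ n + (1 - lm τ a b c) * x b ^ n := by
  constructor
  · rintro ⟨u, v, hx⟩ c
    rw [hx c, hx a, hx b]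
    exact lm_eq h c u v
  · intro hx
    refine ⟨(x a ^ n - x b ^ n) / (τ b - τ a), x b ^ n + τ b * ((x a ^ n - x b ^ n) / (τ b - τ a)),
      fun c => ?_⟩
    rw [hx c]
    unfold lm
    field_simp
    ring

omit [Fintype α] [DecidableEq α] in
theorem good_pair [Nontrivial α] {n : ℕ} (hn : n ≠ 0) {τ : α → ℂ} (hτ : Function.Injective τ)
    {x : α → ℂ} (hx : x ∈ FY n τ) : ∃ a b, a ≠ b ∧ ∀ c, c ≠ a → x c ≠ 0 := by
  obtain ⟨h0, u, v, h⟩ := hx
  by_cases hz : ∃ a, x a = 0
  · obtain ⟨a, ha⟩ := hz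
    obtain ⟨b, hb⟩ := exists_ne a
    refine ⟨a, b, hb.symm, fun c hc hc0 => h0 ?_⟩
    have h1 := h a
    have h2 := h c
    rw [ha, zero_pow hn] at h1
    rw [hc0, zero_pow hn] at h2
    have hne : τ c - τ a ≠ 0 := sub_ne_zero.2 fun e => hc (hτ e)
    have hu : u = 0 := by
      have : (τ c - τ a) * u = 0 := by linear_combination h2 - h1
      exact (mul_eq_zero.1 this).resolve_left hne
    have hv : v = 0 := by rw [hu] at h1; linear_combination -h1
    funext d
    have := h d
    rw [hu, hv] at this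
    simpa [hn] using this
  · obtain ⟨a, b, hab⟩ := exists_pair_ne α
    exact ⟨a, b, hab, fun c _ hc => hz ⟨c, hc⟩⟩

theorem pow_inj_near {n : ℕ} (hn : n ≠ 0) {y : ℂ} (hy : y ≠ 0) :
    ∃ U ∈ 𝓝 y, ∀ p ∈ U, ∀ q ∈ U, p ^ n = q ^ n → p = q := by
  have hd : HasStrictDerivAt (fun x : ℂ => x ^ n) ((n : ℂ) * y ^ (n - 1)) y :=
    hasStrictDerivAt_pow n y
  have hne : (n : ℂ) * y ^ (n - 1) ≠ 0 := mul_ne_zero (by exact_mod_cast hn) (pow_ne_zero _ hy)
  have h := hd.eventually_left_inverse hne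
  refine ⟨_, h, fun p hp q hq e => ?_⟩
  have hp' : HasStrictDerivAt.localInverse _ _ _ hd hne (p ^ n) = p := hp
  have hq' : HasStrictDerivAt.localInverse _ _ _ hd hne (q ^ n) = q := hq
  rw [← hp', e, hq']

/-- The chart. -/
def FP (n : ℕ) (τ : α → ℂ) (x : α → ℂ) (a b : α) (z : ℂ) : α → ℂ := fun c =>
  if c = a then x a + z * x b else if c = b then x b else
    x c * ((lm τ a b c * (x a + z * x b) ^ n + (1 - lm τ a b c) * x b ^ n) / x c ^ n) ^ (n⁻¹ : ℂ)

theorem FP_chart {n : ℕ} (hn : n ≠ 0) {τ : α → ℂ} (hτ : Function.Injective τ) {x : α → ℂ}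
    (hx : x ∈ FY n τ) {a b : α} (hab : a ≠ b) (hc : ∀ c, c ≠ a → x c ≠ 0) :
    AnalyticAt ℂ (FP n τ x a b) 0 ∧ FP n τ x a b 0 = x ∧ (∀ z, FP n τ x a b z ∈ FY n τ) ∧
      (∀ᶠ z in 𝓝 0, Imm (FP n τ x a b) z) ∧
      ∀ D ∈ 𝓝 (0 : ℂ), ∀ᶠ P' in 𝓝 x, P' ∈ FY n τ →
        ∃ c : ℂ, c ≠ 0 ∧ ∃ z ∈ D, P' = c • FP n τ x a b z := by
  have hne : τ b - τ a ≠ 0 := sub_ne_zero.2 fun e => hab (hτ e).symm
  have hb : x b ≠ 0 := hc b hab.symm
  have hx' := (mem_FY hne x).1 hx.2
  have ea : ∀ z, FP n τ x a b z a = x a + z * x b := fun z => by simp [FP]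
  have eb : ∀ z, FP n τ x a b z b = x b := fun z => by simp [FP, hab.symm]
  have han : AnalyticAt ℂ (FP n τ x a b) 0 := by
    refine AnalyticAt.pi fun c => ?_
    by_cases h1 : c = a
    · simp only [FP, h1, if_true]
      fun_prop
    by_cases h2 : c = b
    · simp only [FP, h2, if_true, hab.symm, if_false]
      fun_prop
    simp only [FP, h1, h2, if_false]
    refine analyticAt_const.mul (AnalyticAt.cpow (by fun_prop) analyticAt_const ?_)
    simp only [zero_mul, add_zero]
    rw [← hx' c, div_self (pow_ne_zero _ (hc c h1))]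
    exact one_mem_slitPlane
  have h0 : FP n τ x a b 0 = x := by
    funext c
    by_cases h1 : c = a
    · rw [h1, ea]; simp
    by_cases h2 : c = b
    · rw [h2, eb]
    simp only [FP, h1, h2, if_false, zero_mul, add_zero]
    rw [← hx' c, div_self (pow_ne_zero _ (hc c h1)), one_cpow, mul_one]
  have hpow : ∀ z c, FP n τ x a b z c ^ n =
      lm τ a b c * (x a + z * x b) ^ n + (1 - lm τ a b c) * x b ^ n := by
    intro z c
    by_cases h1 : c = a
    · rw [h1, ea]; simp [lm, div_self hne]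
    by_cases h2 : c = b
    · rw [h2, eb]; simp [lm]
    simp only [FP, h1, h2, if_false]
    rw [mul_pow, cpow_nat_inv_pow _ hn, mul_div_cancel₀ _ (pow_ne_zero _ (hc c h1))]
  refine ⟨han, h0, fun z => ⟨fun e => hb ?_, (mem_FY hne _).2 fun c => ?_⟩, ?_, ?_⟩
  · rw [← eb z, e]; rfl
  · rw [hpow, ea, eb]
  · filter_upwards [han.eventually_analyticAt] with z hz c e
    have hd := hz.differentiableAt.hasDerivAt
    have h1 : HasDerivAt (fun y => FP n τ x a b y a) (deriv (FP n τ x a b) z a) z :=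
      hasDerivAt_pi.1 hd a
    have h2 : HasDerivAt (fun y => FP n τ x a b y b) (deriv (FP n τ x a b) z b) z :=
      hasDerivAt_pi.1 hd b
    simp only [ea] at h1
    simp only [eb] at h2
    have e1 : deriv (FP n τ x a b) z a = x b := by
      have := ((hasDerivAt_id z).mul_const (x b)).const_add (x a)
      simpa using h1.unique this
    have e2 : deriv (FP n τ x a b) z b = 0 := h2.unique (hasDerivAt_const z _)
    rw [e] at e1 e2
    simp only [Pi.smul_apply, smul_eq_mul, eb] at e1 e2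
    have hc0 : c = 0 := (mul_eq_zero.1 e2).resolve_right hb
    rw [hc0, zero_mul] at e1
    exact hb e1.symm
  · intro D hD
    have hz : ContinuousAt (fun P' : α → ℂ => P' a / P' b - x a / x b) x :=
      ((continuous_apply a).continuousAt.div (continuous_apply b).continuousAt hb).sub
        continuousAt_const
    have hz0 : Tendsto (fun P' : α → ℂ => P' a / P' b - x a / x b) (𝓝 x) (𝓝 0) := by
      simpa using hz.tendsto
    have hPb : ∀ᶠ P' : α → ℂ in 𝓝 x, P' b ≠ 0 := (continuous_apply b).continuousAt.eventually_ne hb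
    have hall : ∀ᶠ P' : α → ℂ in 𝓝 x, ∀ c, c ≠ a →
        ((x b / P' b * P' c) ^ n = FP n τ x a b (P' a / P' b - x a / x b) c ^ n →
          x b / P' b * P' c = FP n τ x a b (P' a / P' b - x a / x b) c) := by
      refine eventually_all.2 fun c => ?_
      by_cases h1 : c = a
      · exact Eventually.of_forall fun _ h => absurd h1 h
      obtain ⟨U, hU, hinj⟩ := pow_inj_near hn (hc c h1)
      have t1 : Tendsto (fun P' : α → ℂ => x b / P' b * P' c) (𝓝 x) (𝓝 (x c)) := by
        have : ContinuousAt (fun P' : α → ℂ => x b / P' b * P' c) x :=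
          (continuousAt_const.div (continuous_apply b).continuousAt hb).mul
            (continuous_apply c).continuousAt
        simpa [div_self hb] using this.tendsto
      have t2 : Tendsto (fun P' : α → ℂ => FP n τ x a b (P' a / P' b - x a / x b) c) (𝓝 x)
          (𝓝 (x c)) := by
        have := ((continuous_apply c).continuousAt.tendsto.comp han.continuousAt.tendsto).comp hz0
        rw [h0] at this
        exact this
      filter_upwards [t1 hU, t2 hU] with P' u1 u2 _ e
      exact hinj _ u1 _ u2 e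
    filter_upwards [hz0 hD, hPb, hall] with P' hD' hb' hc' hY
    refine ⟨P' b / x b, div_ne_zero hb' hb, _, hD', funext fun c => ?_⟩
    have hP := (mem_FY hne P').1 hY.2
    have e0 : x a + (P' a / P' b - x a / x b) * x b = x b / P' b * P' a := by field_simp; ring
    have key : x b / P' b * P' c = FP n τ x a b (P' a / P' b - x a / x b) c := by
      by_cases h1 : c = a
      · rw [h1, ea, e0]
      refine hc' c h1 ?_
      rw [hpow, e0, mul_pow, mul_pow, hP c, div_pow]
      have := pow_ne_zero n hb'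
      field_simp
    simp only [Pi.smul_apply, smul_eq_mul]
    rw [← key]
    field_simp

theorem FY_tang {n : ℕ} (hn : n ≠ 0) {τ : α → ℂ} (hτ : Function.Injective τ) {x : α → ℂ}
    {a b : α} (hab : a ≠ b) (hc : ∀ c, c ≠ a → x c ≠ 0) :
    ∃ T : Submodule ℂ (α → ℂ), Module.finrank ℂ T ≤ 2 ∧ ∀ v : α → ℂ,
      (∀ f : MvPolynomial α ℂ, f.IsHomogeneous n → (∀ P' ∈ FY n τ, MvPolynomial.eval P' f = 0) →
        fderiv ℂ (fun Q : α → ℂ => MvPolynomial.eval Q f) x v = 0) → v ∈ T := by
  have hne : τ b - τ a ≠ 0 := sub_ne_zero.2 fun e => hab (hτ e).symm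
  let L : (α → ℂ) →ₗ[ℂ] (α → ℂ) := LinearMap.pi fun c =>
    (x c ^ (n - 1)) • LinearMap.proj c - (lm τ a b c * x a ^ (n - 1)) • LinearMap.proj a -
      ((1 - lm τ a b c) * x b ^ (n - 1)) • LinearMap.proj b
  have hL : ∀ v c, L v c = x c ^ (n - 1) * v c - lm τ a b c * x a ^ (n - 1) * v a -
      (1 - lm τ a b c) * x b ^ (n - 1) * v b := fun v c => by simp [L]
  refine ⟨LinearMap.ker L, ?_, fun v hv => ?_⟩
  · let M : LinearMap.ker L →ₗ[ℂ] ℂ × ℂ :=
      ((LinearMap.proj a).prod (LinearMap.proj b)).comp (LinearMap.ker L).subtype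
    have hM : Function.Injective M := by
      rw [injective_iff_map_eq_zero]
      intro v hv
      have h1 : (v : α → ℂ) a = 0 := congrArg Prod.fst hv
      have h2 : (v : α → ℂ) b = 0 := congrArg Prod.snd hv
      ext c
      by_cases e : c = a
      · rw [e]; exact h1
      have := congrFun (LinearMap.mem_ker.1 v.2) c
      rw [hL, h1, h2] at this
      simpa [hc c e] using this
    simpa using LinearMap.finrank_le_finrank_of_injective hM
  · rw [LinearMap.mem_ker]
    funext c
    have hX : ∀ d : α, (MvPolynomial.X d ^ n : MvPolynomial α ℂ).IsHomogeneous n := fun d => by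
      simpa using (MvPolynomial.isHomogeneous_X ℂ d).pow n
    have := hv (MvPolynomial.X c ^ n - MvPolynomial.C (lm τ a b c) * MvPolynomial.X a ^ n -
      MvPolynomial.C (1 - lm τ a b c) * MvPolynomial.X b ^ n)
      (((hX c).sub ((hX a).C_mul _)).sub ((hX b).C_mul _)) (fun P' hP' => by
        simp only [map_sub, map_mul, map_pow, MvPolynomial.eval_X, MvPolynomial.eval_C]
        rw [(mem_FY hne P').1 hP'.2 c]
        ring)
    simp only [map_sub, map_mul, map_pow, MvPolynomial.eval_X, MvPolynomial.eval_C] at this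
    have hp : ∀ d : α, HasFDerivAt (fun Q : α → ℂ => Q d ^ n)
        (((n : ℂ) * x d ^ (n - 1)) • ContinuousLinearMap.proj (R := ℂ) (φ := fun _ : α => ℂ) d) x :=
      fun d => (hasDerivAt_pow n (x d)).comp_hasFDerivAt x (hasFDerivAt_apply d x)
    have hd := ((hp c).sub ((hp a).const_mul (lm τ a b c))).sub
      ((hp b).const_mul (1 - lm τ a b c))
    have e := hd.fderiv
    have e' : fderiv ℂ (fun Q : α → ℂ => Q c ^ n - lm τ a b c * Q a ^ n -
        (1 - lm τ a b c) * Q b ^ n) x = _ := e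
    rw [e'] at this
    simp only [ContinuousLinearMap.sub_apply, ContinuousLinearMap.smul_apply,
      ContinuousLinearMap.proj_apply, smul_eq_mul] at this
    rw [hL]
    have hn' : (n : ℂ) ≠ 0 := by exact_mod_cast hn
    refine mul_left_cancel₀ hn' ?_
    simp only [Pi.zero_apply, mul_zero]
    linear_combination this

theorem tp_inj {m : ℕ} : Function.Injective (tp (m := m)) := by
  intro i j h
  have := mul_left_cancel₀ I_ne_zero h
  exact Fin.ext (by exact_mod_cast this)

theorem prod_roots {n : ℕ} (hn : 0 < n) {ζ : ℂ} (hζ : IsPrimitiveRoot ζ n) (y v : ℂ) :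
    ∏ k : Fin n, (v - ζ ^ (k : ℕ) * y) = v ^ n - y ^ n := by
  have := congrArg (Polynomial.eval v) (X_pow_sub_C_eq_prod hζ hn (rfl : y ^ n = y ^ n))
  simp only [Polynomial.eval_sub, Polynomial.eval_pow, Polynomial.eval_X, Polynomial.eval_C,
    Polynomial.eval_prod] at this
  rw [this, Finset.prod_range]

theorem scr : SCR := by
  intro m n _ hm hn
  classical
  have hn0 : n ≠ 0 := by omega
  obtain ⟨ζ, hζ⟩ : ∃ ζ : ℂ, IsPrimitiveRoot ζ n := ⟨_, isPrimitiveRoot_exp n hn0⟩
  let ρ : Fin m → ℂ := fun j => tp j ^ (n⁻¹ : ℂ)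
  have hρ : ∀ j, ρ j ^ n = tp j := fun j => cpow_nat_inv_pow _ hn0
  have tp0 : tp (0 : Fin m) = 0 := by simp [tp]
  let τ : {j : Fin m // j ≠ 0} × Fin n → ℂ := fun a => ζ ^ (a.2 : ℕ) * ρ a.1
  have hτ : Function.Injective τ := by
    rintro ⟨j, k⟩ ⟨j', k'⟩ h
    have h1 : ∀ (j : Fin m) (k : ℕ), (ζ ^ k * ρ j) ^ n = tp j := fun j k => by
      rw [mul_pow, ← pow_mul, mul_comm k n, pow_mul, hζ.pow_eq_one, one_pow, one_mul, hρ]
    have h2 : (j : Fin m) = j' := tp_inj (by
      rw [← h1 j k, ← h1 j' k']; exact congrArg (· ^ n) h)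
    obtain rfl : j = j' := Subtype.ext h2
    have hρ0 : ρ j ≠ 0 := fun e => j.2 (tp_inj (by rw [← hρ j, e, zero_pow hn0, tp0]))
    have h3 := hζ.pow_inj k.2 k'.2 (mul_right_cancel₀ hρ0 h)
    rw [Fin.ext h3]
  let j1 : {j : Fin m // j ≠ 0} := ⟨⟨1, by omega⟩, fun e => by simpa using congrArg Fin.val e⟩
  let a1 : {j : Fin m // j ≠ 0} × Fin n := (j1, ⟨0, by omega⟩)
  let a2 : {j : Fin m // j ≠ 0} × Fin n := (j1, ⟨1, by omega⟩)
  have h12 : a1 ≠ a2 := fun e => by simpa [a1, a2] using congrArg (fun a => (a.2 : ℕ)) e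
  have : Nontrivial ({j : Fin m // j ≠ 0} × Fin n) := ⟨a1, a2, h12⟩
  have hne : τ a2 - τ a1 ≠ 0 := sub_ne_zero.2 fun e => h12 (hτ e).symm
  let pu : MvPolynomial ({j : Fin m // j ≠ 0} × Fin n) ℂ :=
    MvPolynomial.C (τ a2 - τ a1)⁻¹ * (MvPolynomial.X a1 ^ n - MvPolynomial.X a2 ^ n)
  let pv : MvPolynomial ({j : Fin m // j ≠ 0} × Fin n) ℂ :=
    MvPolynomial.X a2 ^ n + MvPolynomial.C (τ a2) * pu
  let σ : Option (Fin m) → MvPolynomial ({j : Fin m // j ≠ 0} × Fin n) ℂ := fun o =>
    o.elim pu fun j => if h : j = 0 then pv else ∏ k : Fin n, MvPolynomial.X (⟨j, h⟩, k)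
  have hX : ∀ d, (MvPolynomial.X d ^ n :
      MvPolynomial ({j : Fin m // j ≠ 0} × Fin n) ℂ).IsHomogeneous n := fun d => by
    simpa using (MvPolynomial.isHomogeneous_X ℂ d).pow n
  have hpu : pu.IsHomogeneous n := ((hX a1).sub (hX a2)).C_mul _
  have huv : ∀ x ∈ FY n τ, ∀ c,
      x c ^ n = MvPolynomial.eval x (σ (some 0)) - τ c * MvPolynomial.eval x (σ none) := by
    rintro x ⟨-, u, v, hx⟩ c
    have e1 : MvPolynomial.eval x pu = u := by
      simp only [pu, map_mul, map_sub, map_pow, MvPolynomial.eval_C, MvPolynomial.eval_X]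
      rw [hx a1, hx a2]
      field_simp
      ring
    have e2 : MvPolynomial.eval x pv = v := by
      simp only [pv, map_add, map_mul, map_pow, MvPolynomial.eval_C, MvPolynomial.eval_X, e1]
      rw [hx a2]
      ring
    simp only [σ, Option.elim, dif_pos, e1, e2]
    exact hx c
  have hsj : ∀ (j : {j : Fin m // j ≠ 0}) x,
      MvPolynomial.eval x (σ (some j)) = ∏ k : Fin n, x (j, k) := fun j x => by
    simp only [σ, Option.elim, dif_neg j.2, map_prod, MvPolynomial.eval_X]
  refine ⟨_, inferInstance, FY n τ, σ, ⟨⟨fun _ => 1, fun e => ?_, 0, 1, fun a => by simp⟩,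
    Fintype.one_lt_card, fun h => h.1 rfl, ?_, ?_, ?_, ?_, ?_, ?_⟩⟩
  · simpa using congrFun e a1
  · rintro c hc x ⟨h0, u, v, hx⟩
    refine ⟨smul_ne_zero hc h0, c ^ n * u, c ^ n * v, fun a => ?_⟩
    simp only [Pi.smul_apply, smul_eq_mul, mul_pow, hx a]
    ring
  · have : FY n τ ∪ {0} = ⋂ c, {x | x c ^ n =
        lm τ a1 a2 c * x a1 ^ n + (1 - lm τ a1 a2 c) * x a2 ^ n} := by
      ext x
      simp only [mem_union, mem_singleton_iff, mem_iInter, mem_setOf_eq]
      constructor
      · rintro (h | rfl)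
        · exact (mem_FY hne x).1 h.2
        · intro c; simp [hn0]
      · intro h
        by_cases h0 : x = 0
        · exact Or.inr h0
        · exact Or.inl ⟨h0, (mem_FY hne x).2 h⟩
    rw [this]
    exact isClosed_iInter fun c => isClosed_eq (by fun_prop) (by fun_prop)
  · rintro (_ | j)
    · exact hpu
    · simp only [σ, Option.elim]
      split_ifs with h
      · exact (hX a2).add (hpu.C_mul _)
      · simpa using MvPolynomial.IsHomogeneous.prod Finset.univ
          (fun k : Fin n => (MvPolynomial.X (⟨j, h⟩, k) :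
            MvPolynomial ({j : Fin m // j ≠ 0} × Fin n) ℂ)) (fun _ => 1)
          fun k _ => MvPolynomial.isHomogeneous_X ℂ _
  · intro x hx
    refine ⟨fun e => hx.1 (funext fun c => ?_), fun j => ?_⟩
    · have h1 := huv x hx c
      have e1 : MvPolynomial.eval x (σ (some 0)) = 0 := congrFun e (some 0)
      have e2 : MvPolynomial.eval x (σ none) = 0 := congrFun e none
      rw [e1, e2] at h1
      simpa [hn0] using h1
    · by_cases h : j = 0
      · simp [h, tp0]
      · have := hsj ⟨j, h⟩ x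
        simp only at this ⊢
        rw [this, ← Finset.prod_pow, ← hρ j, ← mul_pow, ← prod_roots (by omega) hζ]
        refine Finset.prod_congr rfl fun k _ => ?_
        rw [huv x hx]
        simp only [τ]
        ring
  · intro x hx
    obtain ⟨a, b, hab, hc⟩ := good_pair hn0 hτ hx
    obtain ⟨h1, h2, h3, h4, h5⟩ := FP_chart hn0 hτ hx hab hc
    refine ⟨FP n τ x a b, h1, h2, h4.mono fun z hz => ⟨h3 z, hz⟩, fun c e => ?_, h5⟩
    have hb : x b ≠ 0 := hc b hab.symm
    have hdP := hasDerivAt_pi.1 h1.differentiableAt.hasDerivAt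
    have hev : ∀ o, AnalyticAt ℂ (fun z => MvPolynomial.eval (FP n τ x a b z) (σ o)) 0 := fun o =>
      AnalyticAt.aeval_mvPolynomial (fun i => analyticAt_pi_iff.1 h1 i) (σ o)
    have hds := hasDerivAt_pi.1 (AnalyticAt.pi hev).differentiableAt.hasDerivAt
    rw [e] at hds
    simp only [Pi.smul_apply, smul_eq_mul, h2] at hds
    have hpw : ∀ d, HasDerivAt (fun z => FP n τ x a b z d ^ n) (c * x d ^ n) 0 := fun d => by
      have := (hds (some 0)).sub ((hds none).const_mul (τ d))
      have e1 : (fun z => FP n τ x a b z d ^ n) = fun z =>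
          MvPolynomial.eval (FP n τ x a b z) (σ (some 0)) -
            τ d * MvPolynomial.eval (FP n τ x a b z) (σ none) := funext fun z => huv _ (h3 z) d
      rw [e1, huv x hx d]
      exact this.congr_deriv (by ring)
    have ea : ∀ z, FP n τ x a b z a = x a + z * x b := fun z => by simp [FP]
    have eb : ∀ z, FP n τ x a b z b = x b := fun z => by simp [FP, hab.symm]
    have hc0 : c = 0 := by
      have := hpw b
      simp only [eb] at this
      exact (mul_eq_zero.1 (this.unique (hasDerivAt_const _ _))).resolve_right (pow_ne_zero _ hb)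
    have hlin : HasDerivAt (fun z : ℂ => x a + z * x b) (x b) 0 := by
      simpa using ((hasDerivAt_id (0 : ℂ)).mul_const (x b)).const_add (x a)
    have ha0 : x a = 0 := by
      have t1 := hpw a
      simp only [ea, hc0, zero_mul] at t1
      have t2 := t1.unique (hlin.pow n)
      have hn' : (n : ℂ) ≠ 0 := by exact_mod_cast hn0
      simp only [zero_mul, add_zero] at t2
      have t3 := (mul_eq_zero.1 t2.symm).resolve_right hb
      exact pow_eq_zero_iff (by omega) |>.1 ((mul_eq_zero.1 t3).resolve_left hn')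
    obtain ⟨j, k⟩ := a
    have t1 := hds (some j)
    simp only [hsj, hc0, zero_mul] at t1
    have e2 : (fun z => ∏ l : Fin n, FP n τ x (j, k) b z (j, l)) = fun z =>
        (x (j, k) + z * x b) * ∏ l ∈ Finset.univ.erase k, FP n τ x (j, k) b z (j, l) := by
      funext z
      rw [← Finset.mul_prod_erase _ _ (Finset.mem_univ k), ea]
    have hg : AnalyticAt ℂ (fun z => ∏ l ∈ Finset.univ.erase k, FP n τ x (j, k) b z (j, l)) 0 :=
      Finset.analyticAt_fun_prod _ fun l _ => analyticAt_pi_iff.1 h1 _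
    rw [e2] at t1
    have t2 := t1.unique (hlin.mul hg.differentiableAt.hasDerivAt)
    simp only [h2, ha0, zero_mul, add_zero] at t2
    refine mul_ne_zero hb (Finset.prod_ne_zero_iff.2 fun l hl => hc (j, l) fun e => ?_) t2.symm
    exact (Finset.mem_erase.1 hl).1 (congrArg Prod.snd e)
  · intro x hx
    obtain ⟨a, b, hab, hc⟩ := good_pair hn0 hτ hx
    exact FY_tang hn0 hτ hab hc

end

end Pool.Agent.MP_fcd29e_an.H11
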