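import Pool.Agent.MP_fcd29e_an.H31.Spec3

/-!
Definitions for the construction of a smooth pseudoconvex domain whose boundary contains a compact
set filled with holomorphic discs.
-/

set_option autoImplicit false

open Complex Set Filter Topology Metric Pool.Agent.MP_fcd29e_an.H81
open scoped ContDiff ComplexConjugate

namespace Pool.Agent.MP_fcd29e_an.H11

noncomputable section

/-! ### Second derivatives -/

/-- The second derivative in the direction `v`. -/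
def hs {X : Type} [NormedAddCommGroup X] [NormedSpace ℝ X] (f : X → ℝ) (p v : X) : ℝ :=
  fderiv ℝ (fderiv ℝ f) p v v

/-- Four times the Levi form. -/
def lev {X : Type} [NormedAddCommGroup X] [NormedSpace ℝ X] [NormedSpace ℂ X] (f : X → ℝ)
    (p v : X) : ℝ := hs f p v + hs f p (I • v)

/-- The Laplacian in the plane. -/
def lap (f : ℂ → ℝ) (z : ℂ) : ℝ := lev f z 1

/-- Twice the `∂̄` derivative in the plane. -/
def dbr {A : Type} [NormedAddCommGroup A] [NormedSpace ℝ A] [NormedSpace ℂ A] (G : ℂ → A)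
    (t : ℂ) : A := fderiv ℝ G t 1 + I • fderiv ℝ G t I

/-- The square of the Euclidean norm. -/
def nsq {ι : Type} [Fintype ι] (p : ι → ℂ) : ℝ := ∑ k, ‖p k‖ ^ 2

/-- The Hermitian product. -/
def ip {ι : Type} [Fintype ι] (p w : ι → ℂ) : ℂ := ∑ k, p k * conj (w k)

/-- A real sum of squares. -/
def rsq {κ : Type} [Fintype κ] (y : κ → ℝ) : ℝ := ∑ k, y k ^ 2

/-- Smooth near a point. -/
def Sm {X F : Type} [NormedAddCommGroup X] [NormedSpace ℝ X] [NormedAddCommGroup F]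
    [NormedSpace ℝ F] (f : X → F) (p : X) : Prop := ∀ᶠ q in 𝓝 p, ContDiffAt ℝ ∞ f q

/-- Invariance under `ℂˣ`. -/
def Inv {N : ℕ} {F : Type} (f : E N → F) : Prop := ∀ c : ℂ, c ≠ 0 → ∀ z, f (c • z) = f z

/-- `K` is a compact subset of the closure of `{ρ < 0}`, filled with holomorphic discs. -/
structure Filled {N : ℕ} (ρ : E N → ℝ) (K : Set (E N)) : Prop where
  ne : K.Nonempty
  cone : Cone K
  sub : ∀ z ∈ K, ρ z ≤ 0
  closed : IsClosed (K ∪ {0})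
  disc : ∀ k ∈ K, ∃ (r : ℝ) (γ : ℂ → E N), 0 < r ∧ DifferentiableOn ℂ γ (ball 0 r) ∧ γ 0 = k ∧
    MapsTo γ (ball 0 r) K ∧ ∀ c : ℂ, deriv γ 0 ≠ c • k

/-! ### The Lorentz space -/

/-- `ℂ × ℂ^r × ℂ^r`. -/
abbrev V (ι : Type) := ℂ × (ι → ℂ) × (ι → ℂ)

/-- Endomorphisms. -/
abbrev EV (ι : Type) [Fintype ι] := V ι →L[ℂ] V ι

variable {ι : Type} [Fintype ι]

/-- The symmetric bilinear form. -/
def B (v w : V ι) : ℂ := -(v.1 * w.1) + (∑ k, (v.2.1 k * w.2.2 k + v.2.2 k * w.2.1 k)) / 2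

/-- The real structure. -/
def cj (v : V ι) : V ι := (conj v.1, fun k => conj (v.2.2 k), fun k => conj (v.2.1 k))

/-- Real null vectors in the future. -/
def cone (ι : Type) [Fintype ι] : Set (V ι) := {x | cj x = x ∧ B x x = 0 ∧ 0 < x.1.re}

/-- `M` keeps the bilinear form. -/
def Orth (M : EV ι) : Prop := ∀ v w, B (M v) (M w) = B v w

/-- The real orthochronous Lorentz group. -/
structure Op1 (G : EV ι) : Prop where
  orth : Orth G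
  real : ∀ v, G (cj v) = cj (G v)
  fut : ∀ x ∈ cone ι, G x ∈ cone ι

/-- `B` as a continuous linear form in the first variable. -/
def Bl (w : V ι) : V ι →L[ℂ] ℂ :=
  LinearMap.toContinuousLinearMap
    { toFun := fun v => B v w
      map_add' := fun u v => by
        simp only [B, Prod.fst_add, Prod.snd_add, Pi.add_apply, add_mul, Finset.sum_add_distrib]
        ring
      map_smul' := fun c v => by
        simp only [B, Prod.smul_fst, Prod.smul_snd, Pi.smul_apply, smul_eq_mul, RingHom.id_apply,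
          mul_assoc, ← mul_add, ← Finset.mul_sum]
        ring }

/-- The eigenvector of eigenvalue `+1`. -/
def ep (c S : ℝ) (w : ι → ℂ) : V ι :=
  ((S : ℂ), fun k => ((c : ℂ) + 1) * conj (w k), fun k => ((c : ℂ) - 1) * w k)

/-- The eigenvector of eigenvalue `-1`. -/
def em (c S : ℝ) (w : ι → ℂ) : V ι :=
  ((S : ℂ), fun k => ((c : ℂ) - 1) * conj (w k), fun k => ((c : ℂ) + 1) * w k)

/-- The centre of the rotation. -/
def ctr (c S : ℝ) (w : ι → ℂ) : V ι :=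
  ((c : ℂ), fun k => (S : ℂ) * conj (w k), fun k => (S : ℂ) * w k)

/-- Spectral projection onto `ep`. -/
def Pp (c S : ℝ) (w : ι → ℂ) : EV ι := ((1 / 2 : ℂ) • Bl (em c S w)).smulRight (ep c S w)

/-- Spectral projection onto `em`. -/
def Pm (c S : ℝ) (w : ι → ℂ) : EV ι := ((1 / 2 : ℂ) • Bl (ep c S w)).smulRight (em c S w)

/-- Spectral projection onto the axis. -/
def P0 (c S : ℝ) (w : ι → ℂ) : EV ι := 1 - Pp c S w - Pm c S w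

/-- The complex one-parameter group of rotations. -/
def rot (c S : ℝ) (w : ι → ℂ) (s : ℂ) : EV ι := P0 c S w + s • Pp c S w + s⁻¹ • Pm c S w

/-- Projection onto the first coordinate. -/
def Q0 : EV ι := (ContinuousLinearMap.inl ℂ ℂ _).comp (ContinuousLinearMap.fst ℂ ℂ _)

/-- Projection onto the second block. -/
def Qp : EV ι := (ContinuousLinearMap.inr ℂ ℂ _).comp (((ContinuousLinearMap.inl ℂ (ι → ℂ) _).comp
  (ContinuousLinearMap.fst ℂ (ι → ℂ) (ι → ℂ))).comp (ContinuousLinearMap.snd ℂ ℂ _))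

/-- Projection onto the third block. -/
def Qm : EV ι := (ContinuousLinearMap.inr ℂ ℂ _).comp (((ContinuousLinearMap.inr ℂ (ι → ℂ) _).comp
  (ContinuousLinearMap.snd ℂ (ι → ℂ) (ι → ℂ))).comp (ContinuousLinearMap.snd ℂ ℂ _))

/-- The scalar rotation `diag (1, s, s⁻¹)`. -/
def dg (s : ℂ) : EV ι := Q0 + s • Qp + s⁻¹ • Qm

/-- The parameters of a rotation. -/
structure Ax (c S : ℝ) (w : ι → ℂ) : Prop where
  hyp : c ^ 2 - S ^ 2 = 1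
  hc : 0 < c
  hS : 0 ≤ S
  unit : nsq w = 1

/-! ### The data of the tube -/

/-- Charts of a flat bundle of null cones inside `ℂ^N`. -/
structure Data (ι : Type) [Fintype ι] (N : ℕ) (J δ : Type) where
  D : J → Set ℂ
  Φ : J → ℂ → (V ι →L[ℂ] E N)
  Γ : J → δ → ℂ × V ι → ℂ
  g : J → ℂ × V ι → ℝ
  φ : J → ℂ × V ι → ℝ
  w2 : J → ℂ → ℝ
  ζ : δ → (E N →L[ℂ] ℂ)

variable {N : ℕ} {J δ : Type}

/-- Two frames describe the same fibre. -/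
def Data.Eqv (d : Data ι N J δ) (i : J) (z : ℂ) (j : J) (z' : ℂ) : Prop :=
  ∃ (c : ℂ) (G : EV ι), c ≠ 0 ∧ Op1 G ∧ (∀ v, d.Φ i z v = c • d.Φ j z' (G v)) ∧
    d.w2 i z = ‖c‖ ^ 2 * d.w2 j z' ∧ ∀ x ∈ cone ι, (∀ e, c * d.Γ i e (z, x) = d.Γ j e (z', G x)) ∧
      ‖c‖ ^ 4 * d.g i (z, x) = d.g j (z', G x) ∧ d.φ i (z, x) = d.φ j (z', G x)

/-- The cone over the bundle of quadrics. -/
def Data.S (d : Data ι N J δ) : Set (E N) :=
  {Z | ∃ i, ∃ z ∈ d.D i, ∃ x, x ≠ 0 ∧ B x x = 0 ∧ Z = d.Φ i z x}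

/-- The cone over the bundle of spheres. -/
def Data.K (d : Data ι N J δ) : Set (E N) :=
  {Z | ∃ i, ∃ z ∈ d.D i, ∃ x ∈ cone ι, ∃ c : ℂ, c ≠ 0 ∧ Z = c • d.Φ i z x}

/-- Quadrics that vanish on a set. -/
def Quad {X : Type} [NormedAddCommGroup X] [NormedSpace ℂ X] (S : Set X)
    (Q : X →L[ℂ] X →L[ℂ] ℂ) : Prop := ∀ Z ∈ S, Q Z Z = 0

/-- The normalising weight of degree `22`. -/
def Data.Θ (d : Data ι N J δ) (i : J) (z : ℂ) (x : V ι) : ℝ := d.g i (z, x) * ‖d.Φ i z x‖ ^ 4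

/-- What the construction of the tube uses. -/
structure Data.Good [Fintype δ] (d : Data ι N J δ) : Prop where
  op : ∀ i, IsOpen (d.D i)
  ne : ∃ i, (d.D i).Nonempty
  hΦ : ∀ i, ∀ z ∈ d.D i, AnalyticAt ℂ (d.Φ i) z
  hΓ : ∀ i e, ∀ z ∈ d.D i, ∀ x, AnalyticAt ℂ (d.Γ i e) (z, x)
  hg : ∀ i, ∀ z ∈ d.D i, ∀ x ∈ cone ι, ContDiffAt ℝ ∞ (d.g i) (z, x) ∧ 0 < d.g i (z, x)
  hφ : ∀ i, ∀ z ∈ d.D i, ∀ x ∈ cone ι, ContDiffAt ℝ ∞ (d.φ i) (z, x) ∧ 0 < d.φ i (z, x)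
  hw : ∀ i, ∀ z ∈ d.D i, ContDiffAt ℝ ∞ (d.w2 i) z ∧ 0 < d.w2 i z
  hom : ∀ i, ∀ z ∈ d.D i, ∀ x ∈ cone ι, ∀ l : ℝ, 0 < l →
    (∀ e, d.Γ i e (z, (l : ℂ) • x) = (l : ℂ) ^ 21 * d.Γ i e (z, x)) ∧
    d.g i (z, (l : ℂ) • x) = l ^ 18 * d.g i (z, x) ∧ l ^ 20 * d.φ i (z, (l : ℂ) • x) = d.φ i (z, x)
  compat : ∀ i j, ∀ z ∈ d.D i, ∀ z' ∈ d.D j, ∀ x x', x ≠ 0 → B x x = 0 → B x' x' = 0 →
    d.Φ i z x = d.Φ j z' x' → d.Eqv i z j z'
  cover : ∃ (s : Finset J) (D' : J → Set ℂ), (∀ j ∈ s, IsCompact (D' j) ∧ D' j ⊆ d.D j) ∧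
    ∀ i, ∀ z ∈ d.D i, ∃ j ∈ s, ∃ z' ∈ D' j, d.Eqv i z j z'
  inj : ∀ i, ∀ z ∈ d.D i, Function.Injective (d.Φ i z)
  imm : ∀ i, ∀ z ∈ d.D i, ∀ x ∈ cone ι, ∀ v, deriv (d.Φ i) z x ≠ d.Φ i z v
  ker : ∀ i, ∀ z ∈ d.D i, ∀ x ∈ cone ι, ∀ v : E N,
    (∀ Q, Quad d.S Q → Q (d.Φ i z x) v + Q v (d.Φ i z x) = 0) →
      ∃ (a : ℂ) (u : V ι), B x u = 0 ∧ v = a • deriv (d.Φ i) z x + d.Φ i z u
  hζ : ∀ e i, ∀ z ∈ d.D i, ∀ v, d.ζ e (d.Φ i z v) = 0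
  nz : ∀ i, ∀ z ∈ d.D i, ∀ x ∈ cone ι, ∃ v, ∑ e, d.Γ i e (z, x) * d.ζ e v ≠ 0
  p3 : ∀ i, ∀ z ∈ d.D i, ∀ x ∈ cone ι, 0 < lap (fun y => Real.log (d.g i (y, x))) z
  p1 : ∀ i, ∀ z ∈ d.D i, ∀ x ∈ cone ι, lap (fun y => d.φ i (y, x)) z < 0

/-- The tangent space of the quadric at `x`, modulo `x`. -/
def Uc (x : V ι) : Submodule ℂ (V ι) where
  carrier := {u | u.1 = 0 ∧ B u x = 0}
  add_mem' := fun {a b} ha hb => ⟨by simp [ha.1, hb.1], by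
    have := (Bl x).map_add a b
    change B (a + b) x = B a x + B b x at this
    rw [this, ha.2, hb.2, add_zero]⟩
  zero_mem' := ⟨rfl, by simp [B]⟩
  smul_mem' := fun c {a} ha => ⟨by simp [ha.1], by
    have := (Bl x).map_smul c a
    change B (c • a) x = c • B a x at this
    rw [this, ha.2, smul_zero]⟩

/-- Stereographic coordinates on the quadric. -/
def xp (x u : V ι) : V ι := x + u + (B u u / (4 * x.1 ^ 2)) • (x.1, -x.2.1, -x.2.2)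

/-- The imaginary part of a spatial vector, in real coordinates. -/
def Jm (u : V ι) : ι ⊕ ι → ℝ :=
  Sum.elim (fun k => ((u.2.2 k - conj (u.2.1 k)) / 2).re) fun k =>
    ((u.2.2 k - conj (u.2.1 k)) / 2).im

/-- The real part. -/
def rp (u : V ι) : V ι := (1 / 2 : ℂ) • (u + cj u)

/-- The chart of the ambient space at a point of `K`. -/
def Data.Ψ (d : Data ι N J δ) (i : J) (x : V ι) (W : Submodule ℂ (E N)) (p : ℂ × Uc x × W) : E N :=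
  d.Φ i p.1 (xp x p.2.1) + p.2.2

/-- The global smooth functions. -/
structure Data.Glob (d : Data ι N J δ) (U : Set (E N)) (A Y : E N → ℝ)
    (G : δ → Fin N → E N → ℂ) : Prop where
  op : IsOpen U
  sub : d.K ⊆ U
  hA : ContDiffOn ℝ ∞ A (E0 N) ∧ Inv A ∧ ∀ Z, 0 ≤ A Z
  hY : ContDiffOn ℝ ∞ Y (E0 N) ∧ Inv Y ∧ ∀ Z, 0 ≤ Y Z
  hG : ∀ e l, ContDiffOn ℝ ∞ (G e l) (E0 N) ∧ Inv (G e l)
  onK : ∀ i, ∀ z ∈ d.D i, ∀ x ∈ cone ι,
    A (d.Φ i z x) = ‖d.Φ i z x‖ ^ 2 / (d.w2 i z * d.φ i (z, x) * d.Θ i z x) ∧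
    ∀ e l, G e l (d.Φ i z x) = d.Γ i e (z, x) * d.Φ i z x l / (d.Θ i z x : ℝ)
  onS : ∀ i, ∀ z ∈ d.D i, ∀ x, x ≠ 0 → B x x = 0 → d.Φ i z x ∈ U →
    Y (d.Φ i z x) = (B x (cj x)).re * d.w2 i z / ‖d.Φ i z x‖ ^ 2

/-- The part of the defining function that vanishes to second order on `K`. -/
def Tz {β : Type} [Fintype β] (A Y : E N → ℝ) (Q : β → (E N →L[ℂ] E N →L[ℂ] ℂ)) (l₁ : ℝ)
    (Z : E N) : ℝ := A Z * Y Z + l₁ * ((∑ b, ‖Q b Z Z‖ ^ 2) / ‖Z‖ ^ 4)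

/-- The part of the defining function that vanishes to first order on `K`. -/
def Data.R [Fintype δ] (d : Data ι N J δ) (G : δ → Fin N → E N → ℂ) (Z : E N) : ℝ :=
  (∑ e, ∑ l, G e l Z * conj (Z l) * d.ζ e Z).re / ‖Z‖ ^ 2

/-- Regularity and the Levi condition at a point of the zero set. -/
def Psc (ρ : E N → ℝ) (Z : E N) : Prop := ρ Z = 0 → fderiv ℝ ρ Z ≠ 0 ∧
  ∀ L, fderiv ℝ ρ Z L = 0 → fderiv ℝ ρ Z (I • L) = 0 → 0 ≤ lev ρ Z L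

/-! ### The curves -/

/-- The poles. -/
def tp {m : ℕ} (j : Fin m) : ℂ := I * (j : ℕ)

/-- The cone over the curve `s_j ^ n = s_0 ^ n - t_j σ ^ n`; `none` is the coordinate `σ`. -/
def XX (m n : ℕ) [NeZero m] : Set (Option (Fin m) → ℂ) :=
  {s | s ≠ 0 ∧ ∀ j, s (some j) ^ n = s (some 0) ^ n - tp j * s none ^ n}

/-- The germ `P` is an immersion into projective space at `z`. -/
def Imm {α : Type} [Fintype α] (P : ℂ → α → ℂ) (z : ℂ) : Prop := ∀ c : ℂ, deriv P z ≠ c • P z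

section bundle

variable (m n : ℕ) [NeZero m] {X₁ : Type} [NormedAddCommGroup X₁] [NormedSpace ℂ X₁] {wi : Type}
  [Fintype wi]
  (Adm : (Option (Fin m) → ℂ) → (V ι →L[ℂ] X₁) → (V ι →L[ℂ] (wi → ℂ)) → (V ι → ℝ) → Prop)

/-- Frames over the same point differ by a Lorentz transformation. -/
def XCompat : Prop :=
  ∀ s ∈ XX m n, ∀ c : ℂ, c ≠ 0 → ∀ e w φ e' w' φ', Adm (c • s) e w φ → Adm s e' w' φ' →
    ∃ G, Op1 G ∧ (∀ v, e v = c ^ (5 * m) • e' (G v)) ∧ (∀ v, c ^ (3 * m) • w v = w' (G v)) ∧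
      ∀ x ∈ cone ι, φ x = φ' (G x)

/-- Holomorphic flat frames along immersed germs. -/
def XChart : Prop :=
  ∀ (s : ℂ → Option (Fin m) → ℂ) (z₀ : ℂ), AnalyticAt ℂ s z₀ →
    (∀ᶠ z in 𝓝 z₀, s z ∈ XX m n) → Imm s z₀ →
    ∃ (e : ℂ → (V ι →L[ℂ] X₁)) (w : ℂ → (V ι →L[ℂ] (wi → ℂ))) (φ : ℂ × V ι → ℝ),
      AnalyticAt ℂ e z₀ ∧ AnalyticAt ℂ w z₀ ∧ ∀ᶠ z in 𝓝 z₀,
        Adm (s z) (e z) (w z) (fun x => φ (z, x)) ∧ ∀ x ∈ cone ι, ContDiffAt ℝ ∞ φ (z, x) ∧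
          lap (fun y => φ (y, x)) z < 0

/-- Frames are injective. -/
def XInj : Prop := ∀ s ∈ XX m n, ∀ e w φ, Adm s e w φ → Function.Injective e

/-- No base points on the cone; the weight is positive and homogeneous. -/
def XPos : Prop := ∀ s ∈ XX m n, ∀ e w φ, Adm s e w φ → ∀ x ∈ cone ι, w x ≠ 0 ∧ 0 < φ x ∧
    ∀ l : ℝ, 0 < l → l ^ 20 * φ ((l : ℂ) • x) = φ x

/-- Binomial relations of degree at most `8 m` cut out the image of a frame. -/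
def XRel : Prop := ∀ s₀ ∈ XX m n, ∀ e₀ w₀ φ₀, Adm s₀ e₀ w₀ φ₀ → ∀ y : X₁,
    (∀ d ≤ 8 * m, ∀ f₁ f₂ : MvPolynomial (Option (Fin m)) ℂ, f₁.IsHomogeneous d →
      f₂.IsHomogeneous d → ∀ l₁ l₂ : X₁ →L[ℂ] ℂ,
      (∀ s ∈ XX m n, ∀ e w φ, Adm s e w φ → ∀ x,
        MvPolynomial.eval s f₁ * l₁ (e x) = MvPolynomial.eval s f₂ * l₂ (e x)) →
      MvPolynomial.eval s₀ f₁ * l₁ y = MvPolynomial.eval s₀ f₂ * l₂ y) → ∃ u, y = e₀ u

/-- Constant quadrics cut out the null cone. -/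
def XQuad : Prop :=
  ∀ s₀ ∈ XX m n, ∀ e₀ w₀ φ₀, Adm s₀ e₀ w₀ φ₀ → ∃ (Q : X₁ →L[ℂ] X₁ →L[ℂ] ℂ) (c : ℂ), c ≠ 0 ∧
    (∀ s ∈ XX m n, ∀ e w φ, Adm s e w φ → ∀ x, B x x = 0 → Q (e x) (e x) = 0) ∧
    ∀ x y, Q (e₀ x) (e₀ y) + Q (e₀ y) (e₀ x) = c * B x y

/-- What is used about the flat bundle over the curve `XX`. -/
structure XGood : Prop where
  compat : XCompat m n Adm
  chart : XChart m n Adm
  inj : XInj m n Adm
  pos : XPos m n Adm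
  rel : XRel m n Adm
  quad : XQuad m n Adm

end bundle

/-- What is used about the unramified cover of `XX` that is cut out in degree `n`. -/
structure CGood (m n : ℕ) [NeZero m] (α : Type) [Fintype α] (Y : Set (α → ℂ))
    (σ : Option (Fin m) → MvPolynomial α ℂ) : Prop where
  ne : Y.Nonempty
  card : 2 ≤ Fintype.card α
  nz : (0 : α → ℂ) ∉ Y
  cone : ∀ c : ℂ, c ≠ 0 → ∀ P ∈ Y, c • P ∈ Y
  closed : IsClosed (Y ∪ {0})
  hom : ∀ o, (σ o).IsHomogeneous n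
  maps : ∀ P ∈ Y, (fun o => MvPolynomial.eval P (σ o)) ∈ XX m n
  chart : ∀ P₀ ∈ Y, ∃ P : ℂ → α → ℂ, AnalyticAt ℂ P 0 ∧ P 0 = P₀ ∧
    (∀ᶠ z in 𝓝 0, P z ∈ Y ∧ Imm P z) ∧ Imm (fun z o => MvPolynomial.eval (P z) (σ o)) 0 ∧
    ∀ D ∈ 𝓝 (0 : ℂ), ∀ᶠ P' in 𝓝 P₀, P' ∈ Y → ∃ c : ℂ, c ≠ 0 ∧ ∃ z ∈ D, P' = c • P z
  tang : ∀ P ∈ Y, ∃ T : Submodule ℂ (α → ℂ), Module.finrank ℂ T ≤ 2 ∧ ∀ v : α → ℂ,
    (∀ f : MvPolynomial α ℂ, f.IsHomogeneous n → (∀ P' ∈ Y, MvPolynomial.eval P' f = 0) →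
      fderiv ℂ (fun Q : α → ℂ => MvPolynomial.eval Q f) P v = 0) → v ∈ T

/-- The Veronese–Segre map. -/
def vs {α ε : Type} (D : ℕ) (q : (α → ℂ) × (ε → ℂ)) : (Fin D → α) × ε → ℂ :=
  fun I => (∏ i, q.1 (I.1 i)) * q.2 I.2

/-! ### The representation and its frames -/

/-- Axes of the rotations: elementary bounds. -/
structure RepB (r m : ℕ) (c S : ℝ) (om : Fin m → Fin r → ℂ) : Prop where
  ax : ∀ j, Ax c S (om j)
  hS : 1 ≤ S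
  hc : c ≤ 4 * r + 1

/-- Axes of the rotations: the group relation and the averages. -/
structure RepOK (r m n : ℕ) (c S : ℝ) (om : Fin m → Fin r → ℂ) : Prop extends RepB r m c S om where
  prod : (List.ofFn fun j => rot c S (om j) (exp (2 * Real.pi * I / n))).prod =
    dg (exp (2 * Real.pi * I / n) ^ (4 * m))
  sum0 : ∑ j, om j = 0
  sum2 : ∀ p, r * ∑ j, ‖ip p (om j)‖ ^ 2 = m * nsq p
  hoef : ∀ (l : ℝ) (p : Fin r → ℂ) (u : ℂ), nsq p = 1 → ‖u‖ = 1 →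
    ∑ j, Real.exp (l * (u * ip p (om j)).re) ≤ m * Real.exp (l ^ 2 / (2 * r))

/-- The solution of the Riemann–Hilbert problem. `Fr t M`: `M` is a flat frame at `t`. -/
structure Frames (r m n : ℕ) (C c S : ℝ) (om : Fin m → Fin r → ℂ) (F Fi : ℂ → EV (Fin r))
    (Fr : ℂ → EV (Fin r) → Prop) : Prop where
  near : ∀ t, ‖F t - 1‖ ≤ C / n
  an : ∀ (j : Fin m) (t : ℂ), ‖t - tp j‖ < 1 / 3 → AnalyticAt ℂ F t ∧ Orth (F t)
  ani : ∀ t : ℂ, (m : ℝ) + 1 < ‖t‖ → AnalyticAt ℂ F t ∧ Orth (F t) ∧ Fi t⁻¹ = F t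
  inf : Fi 0 = 1 ∧ ∀ w : ℂ, ((m : ℝ) + 1) * ‖w‖ < 1 → AnalyticAt ℂ Fi w
  uniq : ∀ t M M', Fr t M → Fr t M' → ∃ G, Op1 G ∧ M' = M * G
  orth : ∀ t M, Fr t M → Orth M
  cell : ∀ (j : Fin m) (s : ℂ), s ≠ 0 → ‖s ^ n‖ < 1 / 3 →
    Fr (tp j + s ^ n) (F (tp j + s ^ n) * rot c S (om j) s)
  far : ∀ τ : ℂ, (m : ℝ) + 1 < ‖τ ^ n‖ → Fr (τ ^ n) (F (τ ^ n) * dg (τ ^ (4 * m)))
  hub : ∀ t₀ : ℂ, (∀ j : Fin m, 1 / 4 ≤ ‖t₀ - tp j‖) → ‖t₀‖ ≤ m + 2 → ∃ Y : ℂ → EV (Fin r),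
    ∀ t ∈ ball t₀ (1 / 32), AnalyticAt ℂ Y t ∧ Fr t (Y t) ∧ ‖Y t - 1‖ ≤ C / n

/-- The bounds for the function on a cell. -/
structure CellB (c S : ℝ) (w : ι → ℂ) (η Cs : ℝ) (f : ℂ × V ι → ℝ) : Prop where
  sm : ∀ s : ℂ, ‖s‖ < 1 → ∀ x ∈ cone ι, ContDiffAt ℝ ∞ f (s, x) ∧ 0 < f (s, x) ∧
    lap (fun y => f (y, x)) s < 0 ∧ ∀ l : ℝ, 0 < l → l ^ 20 * f (s, (l : ℂ) • x) = f (s, x)
  bd : ∀ (ρ : ℝ) (e : ℂ), 0 ≤ ρ → ρ < 1 → ‖e‖ = 1 → ∀ x ∈ cone ι, (rot c S w e x).1 = 1 →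
    1 - Cs * (1 - ρ) ≤ f (ρ * e, x) ∧ f (ρ * e, x) ≤ 1 + Cs * (1 - ρ) ∧
    (‖ip (rot c S w e x).2.2 w‖ ≤ η → f (ρ * e, x) ≤ 1 - (1 - ρ) / 16)

/-- A smooth lower bound for the slope of the function on a cell. -/
def lam (l η Cs : ℝ) (a : ℂ) : ℝ := 1 / 16 - (Cs + 1) * Real.exp (-(l * η / 2)) *
  (Real.exp (l * a.re) + Real.exp (-(l * a.re)) + Real.exp (l * a.im) + Real.exp (-(l * a.im)))

/-- The coefficient of the logarithm at a pole. -/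
def psi (l η Cs c S : ℝ) (w p : ι → ℂ) : ℝ :=
  lam l η Cs (ip p w / (√(nsq p) : ℝ)) -
    (-20 * S * (ip p w / (√(nsq p) : ℝ)).re + 20 * c * ‖ip p w / (√(nsq p) : ℝ)‖ ^ 2) - 1 / 64

/-- The function on the hub. -/
def phh {m : ℕ} (n : ℕ) (l η Cs K c S : ℝ) (om : Fin m → ι → ℂ) (q : ℂ × (ι → ℂ)) : ℝ :=
  (nsq q.2 ^ 10)⁻¹ * (1 + (∑ j, psi l η Cs c S (om j) q.2 * Real.log ‖q.1 - tp j‖ -
    Real.log (1 + ‖q.1‖ ^ 2) - K) / n)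

/-- The function near infinity. -/
def phi0 (q : ℂ × V ι) : ℝ := (q.2.1.re ^ 20)⁻¹ * (2 - ‖q.1‖ ^ 2)

/-- The superharmonic weight in the three kinds of regions. -/
structure PhiB (r m n : ℕ) (c S : ℝ) (om : Fin m → Fin r → ℂ) (F : ℂ → EV (Fin r))
    (Fr : ℂ → EV (Fin r) → Prop) (fc : Fin m → ℂ × V (Fin r) → ℝ) (fi : ℂ × V (Fin r) → ℝ)
    (fh : ℂ × (Fin r → ℂ) → ℝ) : Prop where
  cell : ∀ (j : Fin m) (s : ℂ), ‖s ^ n‖ < 1 / 4 → ∀ x ∈ cone (Fin r),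
    ContDiffAt ℝ ∞ (fc j) (s, x) ∧ 0 < fc j (s, x) ∧ lap (fun y => fc j (y, x)) s < 0 ∧
    ∀ l : ℝ, 0 < l → l ^ 20 * fc j (s, (l : ℂ) • x) = fc j (s, x)
  far : ∀ σ : ℂ, ((m : ℝ) + 2) * ‖σ ^ n‖ < 1 → ∀ x ∈ cone (Fin r),
    ContDiffAt ℝ ∞ fi (σ, x) ∧ 0 < fi (σ, x) ∧ lap (fun y => fi (y, x)) σ < 0 ∧
    ∀ l : ℝ, 0 < l → l ^ 20 * fi (σ, (l : ℂ) • x) = fi (σ, x)
  hub : ∀ t₀ : ℂ, (∀ j : Fin m, 1 / 4 ≤ ‖t₀ - tp j‖) → ‖t₀‖ ≤ m + 2 → ∃ Y : ℂ → EV (Fin r),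
    ∀ t ∈ ball t₀ (1 / 64), AnalyticAt ℂ Y t ∧ Fr t (Y t) ∧ ∀ x ∈ cone (Fin r),
      ContDiffAt ℝ ∞ fh (t, (Y t x).2.2) ∧ lap (fun y => fh (y, (Y y x).2.2)) t < 0
  hubp : ∀ t M, Fr t M → (∀ j : Fin m, 1 / 5 < ‖t - tp j‖) → ‖t‖ < m + 3 → ∀ x ∈ cone (Fin r),
    (M x).2.2 ≠ 0 ∧ 0 < fh (t, (M x).2.2) ∧
    ∀ l : ℝ, 0 < l → l ^ 20 * fh (t, (M ((l : ℂ) • x)).2.2) = fh (t, (M x).2.2)
  ovc : ∀ (j : Fin m) (s : ℂ), 1 / 5 < ‖s ^ n‖ → ‖s ^ n‖ < 1 / 4 → ∀ x ∈ cone (Fin r),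
    fc j (s, x) = fh (tp j + s ^ n, (F (tp j + s ^ n) (rot c S (om j) s x)).2.2)
  ovi : ∀ τ : ℂ, (m : ℝ) + 2 < ‖τ ^ n‖ → ‖τ ^ n‖ < m + 3 → ∀ x ∈ cone (Fin r),
    fi (τ⁻¹, x) = fh (τ ^ n, (F (τ ^ n) (dg (τ ^ (4 * m)) x)).2.2)

/-- Blocks of coordinates: `none` is `A`, `some none` is the block at infinity, `some (some j)` is
the block at the pole `j`. -/
abbrev Bk (m : ℕ) := Option (Option (Fin m))

/-- Indices of the sections of the positive bundle. -/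
abbrev Wi (r m : ℕ) := Option (Fin m × Fin r) × Fin r

section blocks

variable {r m : ℕ} [NeZero m] (n : ℕ) (c S : ℝ) (om : Fin m → Fin r → ℂ) (F : ℂ → EV (Fin r))

/-- The relations between the blocks. -/
def RelE (s : Option (Fin m) → ℂ) (e : Bk m → V (Fin r)) : Prop :=
  s none ^ (4 * m) • Q0 (e (some none)) = s (some 0) ^ (4 * m) • Q0 (e none) ∧
  Qp (e (some none)) = Qp (e none) ∧
  s none ^ (8 * m) • Qm (e (some none)) = s (some 0) ^ (8 * m) • Qm (e none) ∧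
  ∀ j, s (some j) ^ 2 • Pp c S (om j) (e (some (some j))) =
      s none ^ 2 • Pp c S (om j) (Ring.inverse (F (tp j)) (e none)) ∧
    s (some j) • P0 c S (om j) (e (some (some j))) =
      s none • P0 c S (om j) (Ring.inverse (F (tp j)) (e none)) ∧
    Pm c S (om j) (e (some (some j))) = Pm c S (om j) (Ring.inverse (F (tp j)) (e none))

/-- The minors of `π F(t_j) e₋` and `p`. -/
def mnr (j : Fin m) (p : Fin r → ℂ) (l k : Fin r) : ℂ :=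
  (F (tp j) (em c S (om j))).2.2 l * p k - (F (tp j) (em c S (om j))).2.2 k * p l

/-- The relations that define the sections of the positive bundle. -/
def RelW (s : Option (Fin m) → ℂ) (e : Bk m → V (Fin r)) (w : Wi r m → ℂ) : Prop :=
  (∀ k, s none ^ (8 * m) * w (none, k) = (e none).2.2 k ∧
    s (some 0) ^ (8 * m) * w (none, k) = (e (some none)).2.2 k) ∧
  ∀ j l k, s (some j) * w (some (j, l), k) = s none * mnr c S om F j (fun a => w (none, a)) l k ∧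
    s none ^ (8 * m + 1) * w (some (j, l), k) = mnr c S om F j
      (F (tp j) (s (some j) • Pp c S (om j) (e (some (some j))) +
        s none • P0 c S (om j) (e (some (some j))))).2.2 l k

/-- Admissible frames. -/
def Adm (Fr : ℂ → EV (Fin r) → Prop) (fc : Fin m → ℂ × V (Fin r) → ℝ) (fi : ℂ × V (Fin r) → ℝ)
    (fh : ℂ × (Fin r → ℂ) → ℝ) (s : Option (Fin m) → ℂ)
    (e : V (Fin r) →L[ℂ] (Bk m → V (Fin r))) (w : V (Fin r) →L[ℂ] (Wi r m → ℂ))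
    (φ : V (Fin r) → ℝ) : Prop :=
  (∀ x, RelE c S om F s (e x) ∧ RelW c S om F s (e x) (w x)) ∧
  ((∃ (j : Fin m) (G : EV (Fin r)), Op1 G ∧ s none ≠ 0 ∧ ‖(s (some j) / s none) ^ n‖ < 1 / 4 ∧
      (s (some j) ≠ 0 → ∀ x, e x none = ((∏ i, s (some i)) * s none ^ (4 * m)) •
        F ((s (some 0) / s none) ^ n) (rot c S (om j) (s (some j) / s none) (G x))) ∧
      (s (some j) = 0 → ∀ x, e x (some (some j)) =
        ((∏ i ∈ Finset.univ.erase j, s (some i)) * s none ^ (4 * m + 1)) • G x) ∧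
      ∀ x ∈ cone (Fin r), φ x = fc j (s (some j) / s none, G x)) ∨
    (∃ G : EV (Fin r), Op1 G ∧ s (some 0) ≠ 0 ∧ ((m : ℝ) + 2) * ‖(s none / s (some 0)) ^ n‖ < 1 ∧
      (s none ≠ 0 → ∀ x, e x none = ((∏ i, s (some i)) * s none ^ (4 * m)) •
        F ((s (some 0) / s none) ^ n) (dg ((s (some 0) / s none) ^ (4 * m)) (G x))) ∧
      (s none = 0 → ∀ x, e x (some none) = ((∏ i, s (some i)) * s (some 0) ^ (4 * m)) • G x) ∧
      ∀ x ∈ cone (Fin r), φ x = fi (s none / s (some 0), G x)) ∨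
    ∃ M : EV (Fin r), Fr ((s (some 0) / s none) ^ n) M ∧ s none ≠ 0 ∧
      (∀ j : Fin m, 1 / 5 < ‖(s (some 0) / s none) ^ n - tp j‖) ∧
      ‖(s (some 0) / s none) ^ n‖ < m + 3 ∧
      (∀ x, e x none = ((∏ i, s (some i)) * s none ^ (4 * m)) • M x) ∧
      ∀ x ∈ cone (Fin r), φ x = fh ((s (some 0) / s none) ^ n, (M x).2.2))

end blocks

end

end Pool.Agent.MP_fcd29e_an.H11
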