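import Pool.Agent.MP_fcd29e_an.H11.CS

/-!
The main theorem from the steps.
-/

set_option autoImplicit false

open Filter Pool.Agent.MP_fcd29e_an.H81 Pool.Agent.MP_fcd29e_an.H31

namespace Pool.Agent.MP_fcd29e_an.H11

theorem xgood (hRP : SRP) (hFR : SFR) (hPH : SPH) (hNV : SNV) (hXA : SXA) (hXB : SXB) (hXP : SXP)
    (h1 : SX1) (h2 : SX2) (h3 : SX3) : ∃ (r m n : ℕ) (_ : NeZero m), 1 ≤ r ∧ 2 ≤ m ∧ 2 ≤ n ∧
      ∃ Ad : (Option (Fin m) → ℂ) → (V (Fin r) →L[ℂ] (Bk m → V (Fin r))) →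
        (V (Fin r) →L[ℂ] (Wi r m → ℂ)) → (V (Fin r) → ℝ) → Prop, XGood m n Ad := by
  obtain ⟨r₀, hr₀⟩ := hPH
  obtain ⟨m, hm, hrep⟩ := hRP (r₀ + 2) (by omega)
  have : NeZero m := ⟨by omega⟩
  obtain ⟨C, hC⟩ := hFR (r₀ + 2) m
  obtain ⟨n, ⟨c, S, om, hok⟩, hfr, hph, hnv, hn⟩ := (hrep.and (hC.and
    ((hr₀ (r₀ + 2) (by omega) m hm C).and ((hNV (r₀ + 2) m C).and
      (eventually_ge_atTop (8 * m + 2)))))).exists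
  obtain ⟨F, Fi, Fr, hF⟩ := hfr c S om hok
  obtain ⟨fc, fi, fh, hP⟩ := hph c S om F Fi Fr hok hF
  have hB := hXB _ m n C c S om F Fi Fr fc fi fh (by omega) hok.toRepB hF
  refine ⟨r₀ + 2, m, n, inferInstance, by omega, by omega, by omega, Adm n c S om F Fr fc fi fh,
    hXA _ m n C c S om F Fi Fr fc fi fh (by omega) hok.toRepB hF hP, ?_, hB.1,
    hXP _ m n C c S om F Fi Fr fc fi fh (by omega) hok.toRepB hF hP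
      (hnv c S om F Fi Fr hok.toRepB hF), hB.2.1, hB.2.2⟩
  intro s z₀ hs hX hI
  by_cases h0 : s z₀ none = 0
  · exact h3 _ m n C c S om F Fi Fr fc fi fh (by omega) hok.toRepB hF hP s z₀ hs hX hI h0
  by_cases hj : ∃ j, s z₀ (some j) = 0
  · obtain ⟨j, hj⟩ := hj
    exact h2 _ m n C c S om F Fi Fr fc fi fh (by omega) hok.toRepB hF hP s z₀ hs hX hI j hj
  · refine h1 _ m n C c S om F Fi Fr fc fi fh (by omega) hok.toRepB hF hP s z₀ hs hX hI ?_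
    rintro (_ | j)
    exacts [h0, fun h => hj ⟨j, h⟩]

theorem main0 (hP : SP0) (hTB : STB) (hVA : SVA) (hXT : SXT) (hCR : SCR) (hRP : SRP) (hFR : SFR)
    (hPH : SPH) (hNV : SNV) (hXA : SXA) (hXB : SXB) (hXP : SXP) (h1 : SX1) (h2 : SX2) (h3 : SX3) :
    ∃ n : ℕ, 2 ≤ n ∧ ∃ ρ : E (n + 1) → ℝ, Dom ρ ∧ IsConnected (Om ρ) ∧
      ∀ s : ℝ, n + 1 < s → ∃ p, p + 1 ≤ n ∧ ¬ VanishR ρ s (p + 1) p := by
  obtain ⟨r, m, n, _, hr, hm, hn, Ad, hX⟩ := xgood hRP hFR hPH hNV hXA hXB hXP h1 h2 h3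
  obtain ⟨k, Ad', hX'⟩ := hXT _ m n _ _ Ad hX
  obtain ⟨α, _, Y, σ, hY⟩ := hCR m n hm hn
  have : Nonempty (Fin r) := ⟨⟨0, hr⟩⟩
  obtain ⟨N, J, δ, _, d, hN, hd⟩ := hVA _ m n _ _ α Ad' Y σ (by omega) hX' hY
  obtain ⟨ρ, hρ, hK⟩ := hTB _ N J δ d hd
  obtain ⟨ρ₀, h₀, hc, hs⟩ := hP N ρ _ hρ hK
  obtain ⟨N', rfl⟩ : ∃ N', N = N' + 1 := ⟨N - 1, by omega⟩
  refine ⟨N', by omega, ρ₀, h₀, hc, fun s hs' => ?_⟩
  obtain ⟨p, hp, h⟩ := hs s (by push_cast; exact hs')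
  exact ⟨p, by omega, h⟩

end Pool.Agent.MP_fcd29e_an.H11
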