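import Pool.Agent.MP_fcd29e_an.H31.Spec3
import Pool.Agent.MP_fcd29e_an.H33.R

/-! From line bundles to forms, for an abstract Sobolev class. -/

set_option autoImplicit false

namespace Pool.Agent.MP_fcd29e_an.H11

open Pool.Agent.MP_fcd29e_an.H81 Pool.Agent.MP_fcd29e_an.H31 Pool.Agent.MP_fcd29e_an.H63
  Pool.Agent.MP_fcd29e_an.H33
open MeasureTheory Complex Set Filter Topology Metric
open scoped ContDiff ComplexConjugate ENNReal NNReal

variable {N : ℕ} {ι : Type} [Fintype ι] {S : (E N → ℂ) → Prop}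

theorem cls_comb (hS : Cls S) (s F : ι → E N → ℂ) (hs : ∀ i, ContDiffOn ℝ ∞ (s i) (E0 N))
    (hF : ∀ i, S (F i)) : S fun z => ∑ i, s i z * F i z :=
  hS.sum ι Finset.univ (fun i z => s i z * F i z) fun i _ => hS.mul _ _ (hs i) (hF i)

theorem l2_of_cls (L : Lv1) (hS : Cls S) {U : Set (E N)} (h0 : (0 : E N) ∉ U) {f : E N → ℂ}
    (hf : S f) : L2 U f :=
  ((L.t1 N (E0 N) isOpen_E0 cone_E0.1).1 f (hS.l2 f hf)).2.2.2.2.2.2 U
    fun _ hz e => h0 ((mem_singleton_iff.1 e) ▸ hz)

theorem ftg (L : Lv1) (h : StmtLTg) : StmtFTg := by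
  intro q ρ hρ S hS p f hf hs
  have hO := L.c1 _ ρ hρ
  have h0 : (0 : E (q + 3)) ∉ Om ρ := hO.2.2.1.1
  have hfa : ∀ J z, z ≠ 0 → altA fun I => f I J z := fun J z hz I σ => hf.alt I J σ z hz
  have hfh : ∀ J z, z ≠ 0 → horA (fun l => z l) fun I => f I J z :=
    fun J z hz I a => hf.hor I J a z hz
  rcases le_or_gt (q + 3) p with hp | hp
  · refine ⟨fun _ _ _ => 0, ⟨fun I => ⟨fun J c _ z _ => ?_, fun J σ z _ => ?_, fun J a z _ => ?_⟩,
      fun I J σ z _ => ?_, fun I J a z _ => ?_⟩, fun I J => ?_, fun I J ψ _ => ?_⟩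
    · simp
    · simp
    · simp
    · simp
    · simp
    · exact hS.smooth _ contDiffOn_const
    · have : ∫ z in Om ρ, f I J z * ψ z = 0 := by
        refine setIntegral_eq_zero_of_forall_eq_zero fun z hz => ?_
        have := ((L.al1 _ p (fun l => z l) 0).1 _).2.2.2.1 (hfa J z hz.1) (hfh J z hz.1)
          (fun e => hz.1 (PiLp.ext fun l => congrFun e l)) hp I
        rw [this, zero_mul]
      rw [this]; simp
  · let g : (Fin (p + 1) → Fin (q + 3)) → Arr (q + 3) (q + 1 + 1) := fun I J z =>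
      ∑ a : Fin (p + 1), ((-1) ^ (a : ℕ) * th (I a) z) * f (a.removeNth I) J z
    have hg1 : ∀ I, HB (E0 _) (-((p + 1 : ℕ) : ℤ)) (g I) := fun I =>
      hb_comb (a := -1) (m := -p) (by push_cast; ring)
        (fun (a : Fin (p + 1)) z => (-1) ^ (a : ℕ) * th (I a) z) _
        (fun a c hc z hz => by beta_reduce; rw [th_hom _ c hc z hz]; ring) fun a => hf.hb _
    have hg2 : ∀ I J, S (g I J) := fun I J =>
      cls_comb hS (fun (a : Fin (p + 1)) z => (-1) ^ (a : ℕ) * th (I a) z) _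
        (fun a => contDiffOn_const.mul (th_smooth _)) fun a => hs _ J
    choose y hy1 hy2 hy3 using fun I =>
      h q ρ hρ S hS (-((p + 1 : ℕ) : ℤ)) (by omega) (by omega) (g I) (hg1 I) (hg2 I)
    let y' : (Fin (p + 1) → Fin (q + 3)) → Arr (q + 3) (q + 1) := fun I J z =>
      ∑ σ : Equiv.Perm (Fin (p + 1)),
        ((((p + 1).factorial : ℂ))⁻¹ * (Equiv.Perm.sign σ : ℤ)) * y (I ∘ σ) J z
    have e' : ∀ (x : (Fin (p + 1) → Fin (q + 3)) → ℂ) I, ∑ σ : Equiv.Perm (Fin (p + 1)),
        ((((p + 1).factorial : ℂ))⁻¹ * (Equiv.Perm.sign σ : ℤ)) * x (I ∘ σ) = AltA x I := by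
      intro x I
      unfold AltA
      rw [Finset.mul_sum]
      exact Finset.sum_congr rfl fun σ _ => mul_assoc _ _ _
    have k1 : ∀ I, HB (E0 _) (-((p + 1 : ℕ) : ℤ)) (y' I) := fun I =>
      hb_comb (a := 0) (zero_add _).symm
        (fun (σ : Equiv.Perm (Fin (p + 1))) _ => (((p + 1).factorial : ℂ))⁻¹ * (Equiv.Perm.sign σ : ℤ)) _
        (fun a c hc z hz => by simp) fun a => hy1 _
    have k2 : ∀ I J, S (y' I J) := fun I J =>
      cls_comb hS (fun (σ : Equiv.Perm (Fin (p + 1))) _ => (((p + 1).factorial : ℂ))⁻¹ * (Equiv.Perm.sign σ : ℤ)) _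
        (fun a => contDiffOn_const) fun a => hy2 _ J
    have k3 : ∀ I, DB (Om ρ) (y' I) (g I) := fun I =>
      db_comb L hO.1 h0 (fun (σ : Equiv.Perm (Fin (p + 1))) _ => (((p + 1).factorial : ℂ))⁻¹ * (Equiv.Perm.sign σ : ℤ))
        (fun σ => y (I ∘ σ)) (fun σ => g (I ∘ σ)) (fun a => contDiffOn_const)
        (fun _ j z => dzb_const j _ z) (fun a J => l2_of_cls L hS h0 (hy2 _ J))
        (fun a J => l2_of_cls L hS h0 (hg2 _ J)) (fun a => hy3 _) (g I) fun J z hz => by
          have h1 := ((L.al1 _ p 0 fun j => th j z).1 _).1 (hfa J z hz.1)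
          have h2 := ((L.al1 _ (p + 1) 0 0).1 _).2.2.2.2.2.1 h1
          exact (e' (fun I => g I J z) I).trans (congrFun h2 I)
    have k4 : ∀ J z, altA fun I => y' I J z := fun J z => by
      have h1 := ((L.al1 _ (p + 1) 0 0).1 fun I => y I J z).2.2.2.2.1
      have h2 : (fun I => y' I J z) = AltA fun I => y I J z :=
        funext fun I => e' (fun I => y I J z) I
      rwa [h2]
    refine ⟨fun I J z => ∑ l, z l * y' (Fin.cons l I) J z, ⟨fun I => ?_, fun I J σ z _ => ?_,
      fun I J a z _ => ?_⟩, fun I J => ?_, fun I => ?_⟩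
    · exact hb_comb (a := 1) (m := -((p + 1 : ℕ) : ℤ)) (by push_cast; ring) (fun l z => z l) _
        (fun l c hc z hz => by simp) fun l => k1 _
    · exact ((L.al1 _ p (fun l => z l) 0).2 _ (k4 J z)).1 I σ
    · exact ((L.al1 _ p (fun l => z l) 0).2 _ (k4 J z)).2.1 I a
    · exact cls_comb hS (fun l z => z l) _ (fun l => (contDiff_coord l).contDiffOn) fun l => k2 _ J
    · refine db_comb L hO.1 h0 (fun l z => z l) (fun l => y' (Fin.cons l I))
        (fun l => g (Fin.cons l I)) (fun l => (contDiff_coord l).contDiffOn)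
        (fun l j z => dzb_coord j l z) (fun l J => l2_of_cls L hS h0 (k2 _ J))
        (fun l J => l2_of_cls L hS h0 (hg2 _ J)) (fun l => k3 _) (f I) fun J z hz => ?_
      have h1 := ((L.al1 _ p (fun l => z l) fun j => th j z).1 _).2.1 (hfh J z hz.1) I
      rw [sum_th hz.1, one_mul] at h1
      exact h1

theorem rg (L : Lv1) (ht : StmtFTg) : StmtRg := by
  intro q ρ hρ S hS h p
  refine ⟨?_, fun f hf hs _ => ht q ρ hρ S hS p f hf hs⟩
  intro f hf hs hcl
  have hO := L.c1 _ ρ hρ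
  have h0 : (0 : E (q + 3)) ∉ Om ρ := hO.2.2.1.1
  have hfa : ∀ J z, z ≠ 0 → altA fun I => f I J z := fun J z hz I σ => hf.alt I J σ z hz
  have hfh : ∀ J z, z ≠ 0 → horA (fun l => z l) fun I => f I J z :=
    fun J z hz I a => hf.hor I J a z hz
  rcases le_or_gt (q + 3) p with hp | hp
  · refine ⟨fun _ _ _ => 0, ⟨fun I => ⟨fun J c _ z _ => ?_, fun J σ z _ => ?_, fun J a z _ => ?_⟩,
      fun I J σ z _ => ?_, fun I J a z _ => ?_⟩, fun I J => ?_, fun I J ψ _ => ?_⟩
    · simp
    · simp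
    · simp
    · simp
    · simp
    · exact hS.smooth _ contDiffOn_const
    · have : ∫ z in Om ρ, f I J z * ψ z = 0 := by
        refine setIntegral_eq_zero_of_forall_eq_zero fun z hz => ?_
        have := ((L.al1 _ p (fun l => z l) 0).1 _).2.2.2.1 (hfa J z hz.1) (hfh J z hz.1)
          (fun e => hz.1 (PiLp.ext fun l => congrFun e l)) hp I
        rw [this, zero_mul]
      rw [this]; simp
  · let g : (Fin (p + 1) → Fin (q + 3)) → Arr (q + 3) (q + 1) := fun I J z =>
      ∑ a : Fin (p + 1), ((-1) ^ (a : ℕ) * th (I a) z) * f (a.removeNth I) J z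
    have hg1 : ∀ I, HB (E0 _) (-((p + 1 : ℕ) : ℤ)) (g I) := fun I =>
      hb_comb (a := -1) (m := -p) (by push_cast; ring)
        (fun (a : Fin (p + 1)) z => (-1) ^ (a : ℕ) * th (I a) z) _
        (fun a c hc z hz => by beta_reduce; rw [th_hom _ c hc z hz]; ring) fun a => hf.hb _
    have hg2 : ∀ I J, S (g I J) := fun I J =>
      cls_comb hS (fun (a : Fin (p + 1)) z => (-1) ^ (a : ℕ) * th (I a) z) _
        (fun a => contDiffOn_const.mul (th_smooth _)) fun a => hs _ J
    let F : Form (q + 3) (p + 1) (q + 1 + 1) := fun I J z =>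
      ∑ a : Fin (p + 1), (-1) ^ (a : ℕ) * wd (om (I a)) (f (a.removeNth I)) J z
    have hw2 : ∀ i K J, S (wd (om i) (f K) J) := fun i K J =>
      cls_comb hS (fun (b : Fin (q + 1 + 1)) z => (-1) ^ (b : ℕ) * om i (J b) z) _
        (fun b => contDiffOn_const.mul (om_smooth _ _)) fun b => hs K _
    have hF2 : ∀ I J, S (F I J) := fun I J =>
      cls_comb hS (fun (a : Fin (p + 1)) _ => (-1) ^ (a : ℕ)) _
        (fun a => contDiffOn_const) fun a => hw2 _ _ J
    have hFe : ∀ J z, (fun I => F I J z) = fun I => ∑ b : Fin (q + 1 + 1), (-1) ^ (b : ℕ) *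
        wdA (fun i => om i (J b) z) (fun K => f K (b.removeNth J) z) I := by
      intro J z
      funext I
      simp only [F, wd, wdA, Finset.mul_sum]
      rw [Finset.sum_comm]
      refine Finset.sum_congr rfl fun b _ => Finset.sum_congr rfl fun a _ => ?_
      ring
    have hF1 : Basic (E0 _) F := by
      refine ⟨fun I => ?_, fun I J σ z hz => ?_, fun I J a z hz => ?_⟩
      · exact hb_comb (a := 0) (m := -p - 1) (by push_cast; ring)
          (fun (a : Fin (p + 1)) _ => (-1) ^ (a : ℕ)) _ (fun a c hc z hz => by simp)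
          fun a => hb_wd L _ _ (hf.hb _)
      · have h1 : altA fun I => F I J z := by
          rw [hFe]
          exact alt_sum _ _ fun b => ((L.al1 _ p 0 _).1 _).1 (hfa _ z hz)
        exact h1 I σ
      · have h1 : horA (fun l => z l) fun I => F I J z := by
          rw [hFe]
          exact hor_sum _ _ _ fun b => ((L.al1 _ p _ _).1 _).2.2.1 (hfa _ z hz) (hfh _ z hz)
            (sum_om_left _ hz)
        exact h1 I a
    have T := L.t1 _ (Om ρ) hO.1 h0
    have hg3 : ∀ I, DB (Om ρ) (g I) (F I) := by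
      intro I
      have FR := L.frm (q + 3) (q + 1) (Om ρ) hO.1 h0
      have h1 : ∀ i K, DB (Om ρ) (fun J z => th i z * f K J z) (wd (om i) (f K)) := by
        intro i K
        have h2 := ((FR.1 _ _ (hcl K)).2.2.2 (fun J => l2_of_cls L hS h0 (hs K J))
          (fun J => T.2.2.1 _ continuousOn_const)).2.1 (th i) (th_smooth i)
        refine (FR.1 _ _ h2).1 _ _ (fun J => Eventually.of_forall fun z _ => rfl)
          fun J => Eventually.of_forall fun z hz => ?_
        simp [wd, wdA, dzb_th _ _ hz.1]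
      have h2 := db_comb L hO.1 h0 (fun (a : Fin (p + 1)) _ => (-1) ^ (a : ℕ))
        (fun a J z => th (I a) z * f (a.removeNth I) J z)
        (fun a => wd (om (I a)) (f (a.removeNth I))) (fun a => contDiffOn_const)
        (fun _ j z => dzb_const j _ z)
        (fun a J => (T.1 _ (l2_of_cls L hS h0 (hs _ J))).2.2.2.2.1 _ (th_smooth _).continuousOn)
        (fun a J => l2_of_cls L hS h0 (hw2 _ _ J)) (fun a => h1 _ _) (F I) fun J z _ => rfl
      refine (FR.1 _ _ h2).1 _ _ (fun J => Eventually.of_forall fun z _ => ?_)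
        fun J => Eventually.of_forall fun z _ => rfl
      exact Finset.sum_congr rfl fun a _ => (mul_assoc _ _ _).symm
    obtain ⟨v, hv1, hv2, hv3⟩ := ht q ρ hρ S hS (p + 1) F hF1 hF2
    let w : (Fin (p + 1) → Fin (q + 3)) → Arr (q + 3) (q + 1) := fun I J z => g I J z - v I J z
    have hw1 : ∀ I, HB (E0 _) (-((p + 1 : ℕ) : ℤ)) (w I) := fun I =>
      hb_sub _ _ (hg1 I) (hv1.hb I)
    have hw3 : ∀ I J, S (w I J) := fun I J =>
      hS.sub _ _ (hg2 I J) (hv2 I J)
    have hw4 : ∀ I, DB (Om ρ) (w I) 0 := by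
      intro I
      have FR := L.frm (q + 3) (q + 1) (Om ρ) hO.1 h0
      have h1 := FR.2.2.1 _ _ _ _ (hg3 I) (hv3 I)
        (fun J => ⟨l2_of_cls L hS h0 (hg2 I J), l2_of_cls L hS h0 (hv2 I J)⟩)
        (fun J => ⟨l2_of_cls L hS h0 (hF2 I J), l2_of_cls L hS h0 (hF2 I J)⟩)
      exact (FR.1 _ _ h1).1 _ _ (fun J => Eventually.of_forall fun z _ => rfl)
        fun J => Eventually.of_forall fun z _ => sub_self _
    have hwa : ∀ J z, z ≠ 0 → altA fun I => w I J z := by
      intro J z hz I σ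
      have h1 := ((L.al1 _ p 0 fun j => th j z).1 _).1 (hfa J z hz) I σ
      have h2 := hv1.alt I J σ z hz
      show g (I ∘ σ) J z - v (I ∘ σ) J z = _ * (g I J z - v I J z)
      rw [h2, mul_sub]
      exact congrArg (· - _) h1
    choose y hy1 hy2 hy3 using fun I =>
      h (-((p + 1 : ℕ) : ℤ)) (by omega) (by omega) (w I) (hw1 I) (hw3 I) (hw4 I)
    let y' : (Fin (p + 1) → Fin (q + 3)) → Arr (q + 3) q := fun I J z =>
      ∑ σ : Equiv.Perm (Fin (p + 1)),
        ((((p + 1).factorial : ℂ))⁻¹ * (Equiv.Perm.sign σ : ℤ)) * y (I ∘ σ) J z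
    have e' : ∀ (x : (Fin (p + 1) → Fin (q + 3)) → ℂ) I, ∑ σ : Equiv.Perm (Fin (p + 1)),
        ((((p + 1).factorial : ℂ))⁻¹ * (Equiv.Perm.sign σ : ℤ)) * x (I ∘ σ) = AltA x I := by
      intro x I
      unfold AltA
      rw [Finset.mul_sum]
      exact Finset.sum_congr rfl fun σ _ => mul_assoc _ _ _
    have k1 : ∀ I, HB (E0 _) (-((p + 1 : ℕ) : ℤ)) (y' I) := fun I =>
      hb_comb (a := 0) (zero_add _).symm
        (fun (σ : Equiv.Perm (Fin (p + 1))) _ =>
          (((p + 1).factorial : ℂ))⁻¹ * (Equiv.Perm.sign σ : ℤ)) _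
        (fun a c hc z hz => by simp) fun a => hy1 _
    have k2 : ∀ I J, S (y' I J) := fun I J =>
      cls_comb hS (fun (σ : Equiv.Perm (Fin (p + 1))) _ =>
          (((p + 1).factorial : ℂ))⁻¹ * (Equiv.Perm.sign σ : ℤ)) _
        (fun a => contDiffOn_const) fun a => hy2 _ J
    have k3 : ∀ I, DB (Om ρ) (y' I) (w I) := fun I =>
      db_comb L hO.1 h0 (fun (σ : Equiv.Perm (Fin (p + 1))) _ =>
          (((p + 1).factorial : ℂ))⁻¹ * (Equiv.Perm.sign σ : ℤ))
        (fun σ => y (I ∘ σ)) (fun σ => w (I ∘ σ)) (fun a => contDiffOn_const)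
        (fun _ j z => dzb_const j _ z) (fun a J => l2_of_cls L hS h0 (hy2 _ J))
        (fun a J => l2_of_cls L hS h0 (hw3 _ J)) (fun a => hy3 _) (w I) fun J z hz => by
          have h2 := ((L.al1 _ (p + 1) 0 0).1 _).2.2.2.2.2.1 (hwa J z hz.1)
          exact (e' (fun I => w I J z) I).trans (congrFun h2 I)
    have k4 : ∀ J z, altA fun I => y' I J z := fun J z => by
      have h1 := ((L.al1 _ (p + 1) 0 0).1 fun I => y I J z).2.2.2.2.1
      have h2 : (fun I => y' I J z) = AltA fun I => y I J z :=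
        funext fun I => e' (fun I => y I J z) I
      rwa [h2]
    refine ⟨fun I J z => ∑ l, z l * y' (Fin.cons l I) J z, ⟨fun I => ?_, fun I J σ z _ => ?_,
      fun I J a z _ => ?_⟩, fun I J => ?_, fun I => ?_⟩
    · exact hb_comb (a := 1) (m := -((p + 1 : ℕ) : ℤ)) (by push_cast; ring) (fun l z => z l) _
        (fun l c hc z hz => by simp) fun l => k1 _
    · exact ((L.al1 _ p (fun l => z l) 0).2 _ (k4 J z)).1 I σ
    · exact ((L.al1 _ p (fun l => z l) 0).2 _ (k4 J z)).2.1 I a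
    · exact cls_comb hS (fun l z => z l) _ (fun l => (contDiff_coord l).contDiffOn) fun l => k2 _ J
    · refine db_comb L hO.1 h0 (fun l z => z l) (fun l => y' (Fin.cons l I))
        (fun l => w (Fin.cons l I)) (fun l => (contDiff_coord l).contDiffOn)
        (fun l j z => dzb_coord j l z) (fun l J => l2_of_cls L hS h0 (k2 _ J))
        (fun l J => l2_of_cls L hS h0 (hw3 _ J)) (fun l => k3 _) (f I) fun J z hz => ?_
      have h1 := ((L.al1 _ p (fun l => z l) fun j => th j z).1 _).2.1 (hfh J z hz.1) I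
      rw [sum_th hz.1, one_mul] at h1
      have h2 := ((L.al1 _ p (fun l => z l) 0).2 (fun I => v I J z)
        (fun I σ => hv1.alt I J σ z hz.1)).2.2.2.1.1 (fun I a => hv1.hor I J a z hz.1) I
      have h3 : ∑ l, z l * w (Fin.cons l I) J z =
          ∑ l, z l * g (Fin.cons l I) J z - ∑ l, z l * v (Fin.cons l I) J z := by
        rw [← Finset.sum_sub_distrib]
        exact Finset.sum_congr rfl fun l _ => mul_sub _ _ _
      rw [h3]
      exact (congrArg₂ (· - ·) h1 h2).trans (sub_zero _)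

end Pool.Agent.MP_fcd29e_an.H11
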