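import Pool.Agent.MP_fcd29e_an.H11.CUp
import Pool.Agent.MP_fcd29e_an.H11.DHS
import Pool.Agent.MP_fcd29e_an.H60.CLV
import Pool.Agent.MP_fcd29e_an.H23.CGR
import Pool.Agent.MP_fcd29e_an.H61.CCU
import Pool.Agent.MP_fcd29e_an.H22.CEX
import Pool.Agent.MP_fcd29e_an.H26.CLE
import Pool.Agent.MP_fcd29e_an.H7.CLY
import Pool.Agent.MP_fcd29e_an.H4.CLG
import Pool.Agent.MP_fcd29e_an.H85.CLO
import Pool.Agent.MP_fcd29e_an.H54.CQP
import Pool.Agent.MP_fcd29e_an.H27.CKC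
import Pool.Agent.MP_fcd29e_an.H53.CCH
import Pool.Agent.MP_fcd29e_an.H42.CGL
import Pool.Agent.MP_fcd29e_an.H31.CT1
import Pool.Agent.MP_fcd29e_an.H34.CTB
import Pool.Agent.MP_fcd29e_an.H9.CVL
import Pool.Agent.MP_fcd29e_an.H11.CCR
import Pool.Agent.MP_fcd29e_an.H25.CV1
import Pool.Agent.MP_fcd29e_an.H80.CV2
import Pool.Agent.MP_fcd29e_an.H74.CVA
import Pool.Agent.MP_fcd29e_an.H16.CXT
import Pool.Agent.MP_fcd29e_an.H82.CPR
import Pool.Agent.MP_fcd29e_an.H46.CHD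
import Pool.Agent.MP_fcd29e_an.H49.CRP
import Pool.Agent.MP_fcd29e_an.H58.CRH
import Pool.Agent.MP_fcd29e_an.H8.CF1
import Pool.Agent.MP_fcd29e_an.H15.CFR
import Pool.Agent.MP_fcd29e_an.H87.CNV
import Pool.Agent.MP_fcd29e_an.H48.CC1
import Pool.Agent.MP_fcd29e_an.H29.CC2
import Pool.Agent.MP_fcd29e_an.H2.CCE
import Pool.Agent.MP_fcd29e_an.H99.CMN
import Pool.Agent.MP_fcd29e_an.H17.CPS
import Pool.Agent.MP_fcd29e_an.H62.CHB
import Pool.Agent.MP_fcd29e_an.H11.DNC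
import Pool.Agent.MP_fcd29e_an.H94.CNI
import Pool.Agent.MP_fcd29e_an.H50.CDV
import Pool.Agent.MP_fcd29e_an.H35.CSM
import Pool.Agent.MP_fcd29e_an.H39.CGU
import Pool.Agent.MP_fcd29e_an.H89.CPH
import Pool.Agent.MP_fcd29e_an.H68.CXU
import Pool.Agent.MP_fcd29e_an.H13.CXA
import Pool.Agent.MP_fcd29e_an.H41.CXB
import Pool.Agent.MP_fcd29e_an.H84.CXP
import Pool.Agent.MP_fcd29e_an.H93.CX0
import Pool.Agent.MP_fcd29e_an.H56.CX1
import Pool.Agent.MP_fcd29e_an.H98.CX2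
import Pool.Agent.MP_fcd29e_an.H70.CX3
import Pool.Agent.MP_fcd29e_an.H81.CP0

/-!
The counterexample: all the steps put together.
-/

set_option autoImplicit false

open Pool.Agent.MP_fcd29e_an.H81 Pool.Agent.MP_fcd29e_an.H31

namespace Pool.Agent.MP_fcd29e_an.H11

theorem mainC :
    ∃ n₀ : ℕ, ∀ n ≥ n₀, ∃ ρ : E (n + 1) → ℝ, Dom ρ ∧ IsConnected (Om ρ) ∧
      ∀ s : ℝ, n + 1 < s → ∃ p, p + 1 ≤ n ∧ ¬ VanishR ρ s (p + 1) p := by
  have hs : SHS := DHS.shs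
  have lv : SLV := H60.slv hs
  have gr : SGR := H23.sgr
  have cu : SCU := H61.scu
  have ex : SEX := H22.sex cu
  have le : SLE := H26.sle hs
  have ly : SLY := H7.sly hs lv
  have lg : SLG := H4.slg hs lv
  have lo : SLO := H85.slo hs lv le ly lg
  have qp : SQP := H54.sqp gr
  have kc : SKC := H27.skc gr
  have ch : SCH := H53.sch gr qp kc
  have gl : SGL := H42.sgl gr qp kc ch ex
  have t1 : ST1 := H31.st1 hs lv gr qp kc ch lo
  have tb : STB := H34.stb lv kc gl t1 cu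
  have vl : SVL := H9.svl
  have cr : SCR := H11.scr
  have v1 : SV1 := H25.sv1
  have v2 : SV2 := H80.sv2 gr vl
  have va : SVA := H74.sva hs lv gr vl v1 v2
  have xt : SXT := H16.sxt
  have pr : SPR := H82.spr gr
  have hd : SHD := H46.shd gr
  have rp : SRP := H49.srp gr pr hd
  have rh : SRH := H58.srh
  have f1 : SF1 := H8.sf1 gr
  have fr : SFR := H15.sfr gr rh f1
  have nv : SNV := H87.snv gr
  have c1 : SC1 := H48.sc1
  have c2 : SC2 := H29.sc2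
  have ce : SCE := H2.sce hs lv gr c1 c2
  have mn : SMN := H99.smn hs
  have ps : SPS := H17.sps gr
  have hb : SHB := H62.shb hs lv gr ps
  have nc : SNC := DNC.snc gr ps hb
  have ni : SNI := H94.sni gr ps hb
  have dv : SDV := H50.sdv gr
  have sm : SSM := H35.ssm gr
  have gu : SGU := H39.sgu hs mn
  have ph : SPH := H89.sph hs lv gr ce hb nc ni dv sm gu
  have xu : SXU := H68.sxu gr
  have xa : SXA := H13.sxa gr xu
  have xb : SXB := H41.sxb gr xu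
  have xp : SXP := H84.sxp gr xu
  have x0 : SX0 := H93.sx0 gr xu
  have x1 : SX1 := H56.sx1 lv gr xu x0
  have x2 : SX2 := H98.sx2 lv gr xu x0
  have x3 : SX3 := H70.sx3 lv gr xu x0
  have p0 : SP0 := H81.sp0
  exact main1 p0 tb va xt cr rp fr ph nv xa xb xp x1 x2 x3

end Pool.Agent.MP_fcd29e_an.H11
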