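import Pool.Agent.MP_fcd29e_an.H11.CD

/-!
Statements of the steps of the construction.
-/

set_option autoImplicit false

open MeasureTheory Complex Set Filter Topology Metric Pool.Agent.MP_fcd29e_an.H81
  Pool.Agent.MP_fcd29e_an.H31
open scoped ContDiff ComplexConjugate

namespace Pool.Agent.MP_fcd29e_an.H11

/-! ### Calculus of second derivatives -/

/-- Real second derivatives. -/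
structure SHS : Prop where
  congr : ∀ (X : Type) [NormedAddCommGroup X] [NormedSpace ℝ X] (f g : X → ℝ) (p v : X),
    f =ᶠ[𝓝 p] g → hs f p v = hs g p v
  add : ∀ (X : Type) [NormedAddCommGroup X] [NormedSpace ℝ X] (f g : X → ℝ) (p v : X),
    ContDiffAt ℝ 2 f p → ContDiffAt ℝ 2 g p → hs (fun q => f q + g q) p v = hs f p v + hs g p v ∧
      hs (fun q => f q - g q) p v = hs f p v - hs g p v ∧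
      hs (fun q => f q * g q) p v =
        f p * hs g p v + g p * hs f p v + 2 * (fderiv ℝ f p v * fderiv ℝ g p v)
  cmul : ∀ (X : Type) [NormedAddCommGroup X] [NormedSpace ℝ X] (f : X → ℝ) (c : ℝ) (p v : X),
    ContDiffAt ℝ 2 f p → hs (fun q => c * f q) p v = c * hs f p v ∧
      hs f p (c • v) = c ^ 2 * hs f p v ∧ hs (fun _ => c) p v = 0
  sum : ∀ (X : Type) [NormedAddCommGroup X] [NormedSpace ℝ X] (κ : Type) (s : Finset κ)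
    (f : κ → X → ℝ) (p v : X), (∀ i ∈ s, ContDiffAt ℝ 2 (f i) p) →
      hs (fun q => ∑ i ∈ s, f i q) p v = ∑ i ∈ s, hs (f i) p v
  comp : ∀ (X : Type) [NormedAddCommGroup X] [NormedSpace ℝ X] (f : X → ℝ) (θ : ℝ → ℝ) (p v : X),
    ContDiffAt ℝ 2 f p → ContDiffAt ℝ 2 θ (f p) → hs (fun q => θ (f q)) p v =
      deriv θ (f p) * hs f p v + deriv (deriv θ) (f p) * fderiv ℝ f p v ^ 2
  chain : ∀ (X Y : Type) [NormedAddCommGroup X] [NormedSpace ℝ X] [NormedAddCommGroup Y]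
    [NormedSpace ℝ Y] (f : Y → ℝ) (γ : X → Y) (p v : X), ContDiffAt ℝ 2 γ p →
    ContDiffAt ℝ 2 f (γ p) → hs (fun q => f (γ q)) p v =
      hs f (γ p) (fderiv ℝ γ p v) + fderiv ℝ f (γ p) (fderiv ℝ (fderiv ℝ γ) p v v)
  line : ∀ (X : Type) [NormedAddCommGroup X] [NormedSpace ℝ X] (f : X → ℝ) (p v : X) (τ : ℝ),
    ContDiffAt ℝ 2 f (p + τ • v) →
      HasDerivAt (fun a : ℝ => f (p + a • v)) (fderiv ℝ f (p + τ • v) v) τ ∧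
      HasDerivAt (fun a : ℝ => fderiv ℝ f (p + a • v) v) (hs f (p + τ • v) v) τ
  polar : ∀ (X : Type) [NormedAddCommGroup X] [NormedSpace ℝ X] (f : X → ℝ) (p v w : X),
    ContDiffAt ℝ 2 f p → fderiv ℝ (fderiv ℝ f) p v w = fderiv ℝ (fderiv ℝ f) p w v ∧
      hs f p (v + w) = hs f p v + hs f p w + 2 * fderiv ℝ (fderiv ℝ f) p v w

/-- Levi forms. -/
structure SLV : Prop where
  hol : ∀ (X Y : Type) [NormedAddCommGroup X] [NormedSpace ℝ X] [NormedSpace ℂ X]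
    [IsScalarTower ℝ ℂ X] [NormedAddCommGroup Y] [NormedSpace ℝ Y] [NormedSpace ℂ Y]
    [IsScalarTower ℝ ℂ Y] [CompleteSpace Y] (f : Y → ℝ) (γ : X → Y) (p v : X), AnalyticAt ℂ γ p →
    ContDiffAt ℝ 2 f (γ p) → lev (fun q => f (γ q)) p v = lev f (γ p) (fderiv ℂ γ p v) ∧
      fderiv ℝ (fun q => f (γ q)) p v = fderiv ℝ f (γ p) (fderiv ℂ γ p v)
  re : ∀ (X : Type) [NormedAddCommGroup X] [NormedSpace ℝ X] [NormedSpace ℂ X]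
    [IsScalarTower ℝ ℂ X] (h : X → ℂ) (p v : X), AnalyticAt ℂ h p →
    Sm (fun q => (h q).re) p ∧ lev (fun q => (h q).re) p v = 0 ∧
      fderiv ℝ (fun q => (h q).re) p v = (fderiv ℂ h p v).re
  nsq : ∀ (X β : Type) [NormedAddCommGroup X] [NormedSpace ℝ X] [NormedSpace ℂ X]
    [IsScalarTower ℝ ℂ X] [Fintype β] (F : X → β → ℂ) (p v : X), AnalyticAt ℂ F p →
    Sm (fun q => nsq (F q)) p ∧ lev (fun q => nsq (F q)) p v = 4 * nsq (fderiv ℂ F p v) ∧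
      fderiv ℝ (fun q => nsq (F q)) p v = 2 * (ip (fderiv ℂ F p v) (F p)).re
  scal : ∀ (X : Type) [NormedAddCommGroup X] [NormedSpace ℝ X] [NormedSpace ℂ X]
    [IsScalarTower ℝ ℂ X] (f : X → ℝ) (p v : X) (a : ℂ), ContDiffAt ℝ 2 f p →
      lev f p (a • v) = ‖a‖ ^ 2 * lev f p v
  one : ∀ (f : ℂ → ℝ) (γ : ℂ → ℂ) (z : ℂ), AnalyticAt ℂ γ z → ContDiffAt ℝ 2 f (γ z) →
    lap (fun y => f (γ y)) z = ‖deriv γ z‖ ^ 2 * lap f (γ z)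
  kit : ∀ (N : ℕ) (ρ : E N → ℝ) (z : E N) (L : Fin N → ℂ), ContDiffAt ℝ ∞ ρ z →
    (∑ j, ∑ k, dz j (dzb k fun w => (ρ w : ℂ)) z * L j * conj (L k)).re =
      lev ρ z (WithLp.toLp 2 L) / 4 ∧
    (∑ j, dz j (fun w => (ρ w : ℂ)) z * L j = 0 →
      fderiv ℝ ρ z (WithLp.toLp 2 L) = 0 ∧ fderiv ℝ ρ z (I • WithLp.toLp 2 L) = 0)
  logn : ∀ (β : Type) [Fintype β] (P : ℂ → β → ℂ) (z : ℂ), AnalyticAt ℂ P z → P z ≠ 0 →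
    0 ≤ lap (fun y => Real.log (H11.nsq (P y))) z ∧
      (Imm P z → 0 < lap (fun y => Real.log (H11.nsq (P y))) z)

/-! ### Part 0: no compact set filled with discs -/

/-- A compact set filled with discs obstructs the vanishing, on one component. -/
def SP0 : Prop := ∀ (N : ℕ) (ρ : E N → ℝ) (K : Set (E N)), Dom ρ → Filled ρ K →
  ∃ ρ₀ : E N → ℝ, Dom ρ₀ ∧ IsConnected (Om ρ₀) ∧
    ∀ s : ℝ, (N : ℝ) < s → ∃ p, p + 1 < N ∧ ¬ VanishR ρ₀ s (p + 1) p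

/-- Invariant cut-off functions. -/
def SCU : Prop := ∀ (N : ℕ) (K U : Set (E N)), Cone K → IsClosed (K ∪ {0}) → IsOpen U →
  K ⊆ U → ∃ χ : E N → ℝ, ContDiffOn ℝ ∞ χ (E0 N) ∧ Inv χ ∧ (∀ z, 0 ≤ χ z ∧ χ z ≤ 1) ∧
    (∀ z ∈ K, ∀ᶠ y in 𝓝 z, χ y = 0) ∧
    ∀ z, z ≠ 0 → (∀ c : ℂ, c ≠ 0 → c • z ∉ U) → χ z = 1

/-- Invariant smooth extension. -/
def SEX : Prop := ∀ (N : ℕ) (K S : Set (E N)) (f : E N → ℝ) (b : Prop), Cone K →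
  IsClosed (K ∪ {0}) → Cone S → (∀ c : ℂ, c ≠ 0 → ∀ z ∈ S, f (c • z) = f z) →
  (∀ k ∈ K, ∃ c : ℂ, c ≠ 0 ∧ ∃ g : E N → ℝ, ∀ᶠ z in 𝓝 (c • k),
    ContDiffAt ℝ ∞ g z ∧ (b → 0 ≤ g z) ∧ (z ∈ S → g z = f z)) →
  ∃ (F : E N → ℝ) (U : Set (E N)), IsOpen U ∧ K ⊆ U ∧ ContDiffOn ℝ ∞ F (E0 N) ∧ Inv F ∧
    (b → ∀ z, 0 ≤ F z) ∧ ∀ z ∈ U, z ∈ S → F z = f z

/-! ### Part 3: the tube -/

section tube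

variable {U W κ : Type} [NormedAddCommGroup U] [NormedSpace ℝ U] [NormedAddCommGroup W]
  [Fintype κ]

/-- The model of `K`. -/
def Kc (Jr : U →L[ℝ] (κ → ℝ)) : Set (ℂ × U × W) := {p | Jr p.2.1 = 0 ∧ p.2.2 = 0}

/-- The size of the normal part. -/
def nn (Jr : U →L[ℝ] (κ → ℝ)) (p : ℂ × U × W) : ℝ := ‖Jr p.2.1‖ + ‖p.2.2‖

end tube

/-- Functions that vanish to second order on the model of `K`. -/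
def SLE : Prop := ∀ (U W κ : Type) [NormedAddCommGroup U] [NormedSpace ℝ U] [FiniteDimensional ℝ U]
  [NormedAddCommGroup W] [NormedSpace ℝ W] [FiniteDimensional ℝ W] [Fintype κ]
  (Jr : U →L[ℝ] (κ → ℝ)) (f : ℂ × U × W → ℝ) (p₀ : ℂ × U × W), p₀ ∈ Kc Jr → Sm f p₀ →
  (∀ᶠ p in 𝓝 p₀, p ∈ Kc Jr → f p = 0 ∧ fderiv ℝ f p = 0) →
  (∃ C, ∀ᶠ p in 𝓝 p₀, ∀ v : ℂ × U × W,
    |hs f p v| ≤ C * (nn Jr p ^ 2 * ‖v.1‖ ^ 2 + ‖v.2.1‖ ^ 2 + ‖v.2.2‖ ^ 2)) ∧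
  ((∀ᶠ p in 𝓝 p₀, p.2.2 = 0 → f p = 0) → ∃ C, ∀ᶠ p in 𝓝 p₀, ∀ v : ℂ × U × W,
    |hs f p v| ≤ C * ((nn Jr p * ‖v.1‖ + ‖v.2.1‖ + ‖v.2.2‖) * (‖p.2.2‖ * ‖v.1‖ + ‖v.2.2‖) +
      nn Jr p * (nn Jr p ^ 2 * ‖v.1‖ ^ 2 + ‖v.2.1‖ ^ 2 + ‖v.2.2‖ ^ 2)))

/-- The term `a |Im u|²`. -/
def SLY : Prop := ∀ (U κ : Type) [NormedAddCommGroup U] [NormedSpace ℝ U] [NormedSpace ℂ U]
  [IsScalarTower ℝ ℂ U] [FiniteDimensional ℝ U] [Fintype κ] (Jr : U →L[ℝ] (κ → ℝ))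
  (a : ℂ × U → ℝ) (p₀ : ℂ × U), (∀ η, Jr η = 0 → Jr (I • η) = 0 → η = 0) → Jr p₀.2 = 0 →
  Sm a p₀ → 0 < a p₀ → lap (fun z => (a (z, p₀.2))⁻¹) p₀.1 < 0 →
  ∃ c C : ℝ, 0 < c ∧ ∀ᶠ p in 𝓝 p₀, ∀ v : ℂ × U,
    c * (‖Jr p.2‖ ^ 2 * ‖v.1‖ ^ 2 + ‖v.2‖ ^ 2) ≤ lev (fun q => a q * rsq (Jr q.2)) p v ∧
    (v.1 = 0 → c * ‖Jr v.2‖ ^ 2 - C * ‖Jr p.2‖ * ‖v.2‖ ^ 2 ≤ hs (fun q => a q * rsq (Jr q.2)) p v)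

/-- The term `κ |F|²`. -/
def SLG : Prop := ∀ (U W β : Type) [NormedAddCommGroup U] [NormedSpace ℝ U] [NormedSpace ℂ U]
  [IsScalarTower ℝ ℂ U] [FiniteDimensional ℝ U] [NormedAddCommGroup W] [NormedSpace ℝ W]
  [NormedSpace ℂ W] [IsScalarTower ℝ ℂ W] [FiniteDimensional ℝ W] [Fintype β]
  (k : ℂ × U × W → ℝ) (F : ℂ × U × W → β → ℂ) (p₀ : ℂ × U × W), p₀.2.2 = 0 → Sm k p₀ → 0 < k p₀ →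
  0 < lap (fun z => Real.log (k (z, p₀.2))) p₀.1 → AnalyticAt ℂ F p₀ →
  (∀ᶠ p in 𝓝 p₀, p.2.2 = 0 → F p = 0) → (∀ w : W, fderiv ℂ F p₀ (0, 0, w) = 0 → w = 0) →
  ∃ c C : ℝ, 0 < c ∧ ∀ᶠ p in 𝓝 p₀, ∀ v : ℂ × U × W,
    c * (‖p.2.2‖ ^ 2 * ‖v.1‖ ^ 2 + ‖v.2.2‖ ^ 2) - C * ‖p.2.2‖ ^ 2 * ‖v.2.1‖ ^ 2 ≤
      lev (fun q => k q * nsq (F q)) p v ∧
    (v.1 = 0 → c * ‖v.2.2‖ ^ 2 - C * ‖p.2.2‖ * (‖v.2.1‖ ^ 2 + ‖v.2.2‖ ^ 2) ≤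
      hs (fun q => k q * nsq (F q)) p v)

/-- The local theorem. -/
def SLO : Prop := ∀ (U W κ β : Type) [NormedAddCommGroup U] [NormedSpace ℝ U] [NormedSpace ℂ U]
  [IsScalarTower ℝ ℂ U] [FiniteDimensional ℝ U] [NormedAddCommGroup W] [NormedSpace ℝ W]
  [NormedSpace ℂ W] [IsScalarTower ℝ ℂ W] [FiniteDimensional ℝ W] [Fintype κ] [Fintype β]
  (Jr : U →L[ℝ] (κ → ℝ)) (a : ℂ × U → ℝ) (k ET ER : ℂ × U × W → ℝ) (F : ℂ × U × W → β → ℂ)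
  (h : ℂ × U × W → ℂ) (p₀ : ℂ × U × W), (∀ η, Jr η = 0 → Jr (I • η) = 0 → η = 0) → p₀ ∈ Kc Jr →
  Sm a (p₀.1, p₀.2.1) → 0 < a (p₀.1, p₀.2.1) → lap (fun z => (a (z, p₀.2.1))⁻¹) p₀.1 < 0 →
  Sm k p₀ → 0 < k p₀ → 0 < lap (fun z => Real.log (k (z, p₀.2))) p₀.1 → AnalyticAt ℂ F p₀ →
  (∀ᶠ p in 𝓝 p₀, p.2.2 = 0 → F p = 0) → (∀ w : W, fderiv ℂ F p₀ (0, 0, w) = 0 → w = 0) →
  Sm ET p₀ → (∀ᶠ p in 𝓝 p₀, (p ∈ Kc Jr → fderiv ℝ ET p = 0) ∧ (p.2.2 = 0 → ET p = 0)) →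
  Sm ER p₀ → (∀ᶠ p in 𝓝 p₀, p ∈ Kc Jr → ER p = 0 ∧ fderiv ℝ ER p = 0) →
  AnalyticAt ℂ h p₀ → (∀ᶠ p in 𝓝 p₀, p ∈ Kc Jr → h p = 0) → fderiv ℂ h p₀ ≠ 0 →
  ∃ Λ₁ : ℝ, ∃ O ∈ 𝓝 p₀, ∀ l₁ ≥ Λ₁, ∃ δ Λ : ℝ, 0 < δ ∧ ∀ p ∈ O, nn Jr p < δ →
    (p ∉ Kc Jr → 0 < a (p.1, p.2.1) * rsq (Jr p.2.1) + ET p + l₁ * (k p * nsq (F p))) ∧
    ∀ l ≥ Λ, ∀ ψ : ℂ × U × W → ℝ, (ψ = fun q =>
      l * (a (q.1, q.2.1) * rsq (Jr q.2.1) + ET q + l₁ * (k q * nsq (F q))) - ((h q).re + ER q)) →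
      (∀ v, 0 ≤ lev ψ p v) ∧ (ψ p = 0 → fderiv ℝ ψ p ≠ 0)

/-- Linear algebra of the Lorentz space. -/
structure SGR : Prop where
  bil : ∀ (ι : Type) [Fintype ι] (u v w : V ι) (a : ℂ), B u v = B v u ∧ Bl w u = B u w ∧
    B (u + v) w = B u w + B v w ∧ B (a • u) w = a * B u w ∧ B (cj u) (cj v) = conj (B u v) ∧
    cj (cj u) = u ∧ cj (u + v) = cj u + cj v ∧ cj (a • u) = conj a • cj u ∧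
    ((∀ y, B u y = 0) → u = 0)
  form : ∀ (ι : Type) [Fintype ι], ∃ Q : V ι →L[ℂ] V ι →L[ℂ] ℂ, ∀ u v, Q u v = B u v
  mem : ∀ (ι : Type) [Fintype ι] (x : V ι), x ∈ cone ι ↔ ∃ (a : ℝ) (ξ : ι → ℂ), 0 < a ∧
    nsq ξ = a ^ 2 ∧ x = ((a : ℂ), fun k => conj (ξ k), ξ)
  cn : ∀ (ι : Type) [Fintype ι], ∀ x ∈ cone ι, x ≠ 0 ∧ ‖x‖ = x.1.re ∧ x.1 = (x.1.re : ℂ) ∧
    (∀ l : ℝ, 0 < l → (l : ℂ) • x ∈ cone ι) ∧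
    ∀ a : ℂ, a • x ∈ cone ι → ∃ l : ℝ, 0 < l ∧ a = l
  cpt : ∀ (ι : Type) [Fintype ι], IsCompact (cone ι ∩ {x | x.1 = 1}) ∧
    (Nonempty ι → (cone ι).Nonempty)
  op : ∀ (ι : Type) [Fintype ι], Op1 (1 : EV ι) ∧ (∀ G G' : EV ι, Op1 G → Op1 G' → Op1 (G * G')) ∧
    (∀ G : EV ι, Op1 G → ∃ G', Op1 G' ∧ G * G' = 1 ∧ G' * G = 1) ∧
    (∀ M M' : EV ι, Orth M → Orth M' → Orth (M * M')) ∧
    ∀ M : EV ι, Orth M → IsUnit M ∧ Orth (Ring.inverse M)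
  blk : ∀ (ι : Type) [Fintype ι] (v : V ι) (s : ℂ), Q0 v = (v.1, 0, 0) ∧ Qp v = (0, v.2.1, 0) ∧
    Qm v = (0, 0, v.2.2) ∧ dg s v = (v.1, s • v.2.1, s⁻¹ • v.2.2)
  dgp : ∀ (ι : Type) [Fintype ι], (dg 1 : EV ι) = 1 ∧ ∀ s : ℂ, s ≠ 0 → Orth (dg s : EV ι) ∧
    (‖s‖ = 1 → Op1 (dg s : EV ι)) ∧ ∀ s', s' ≠ 0 → (dg (s * s') : EV ι) = dg s * dg s'
  vec : ∀ (ι : Type) [Fintype ι] (c S : ℝ) (w : ι → ℂ), Ax c S w →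
    B (ep c S w) (ep c S w) = 0 ∧ B (em c S w) (em c S w) = 0 ∧ B (ep c S w) (em c S w) = 2 ∧
    cj (ep c S w) = em c S w ∧ cj (ctr c S w) = ctr c S w ∧ B (ctr c S w) (ctr c S w) = -1 ∧
    B (ctr c S w) (ep c S w) = 0 ∧ B (ctr c S w) (em c S w) = 0 ∧ ∀ v,
      Pp c S w v = (B v (em c S w) / 2) • ep c S w ∧ Pm c S w v = (B v (ep c S w) / 2) • em c S w ∧
      B v (ep c S w) = -(v.1 * S) + (((c : ℂ) - 1) * ∑ k, v.2.1 k * w k + ((c : ℂ) + 1) * ip v.2.2 w) / 2 ∧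
      B v (em c S w) = -(v.1 * S) + (((c : ℂ) + 1) * ∑ k, v.2.1 k * w k + ((c : ℂ) - 1) * ip v.2.2 w) / 2
  prj : ∀ (ι : Type) [Fintype ι] (c S : ℝ) (w : ι → ℂ), Ax c S w →
    Pp c S w * Pp c S w = Pp c S w ∧ Pm c S w * Pm c S w = Pm c S w ∧
    P0 c S w * P0 c S w = P0 c S w ∧ Pp c S w * Pm c S w = 0 ∧ Pm c S w * Pp c S w = 0 ∧
    Pp c S w * P0 c S w = 0 ∧ P0 c S w * Pp c S w = 0 ∧ Pm c S w * P0 c S w = 0 ∧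
    P0 c S w * Pm c S w = 0
  rt : ∀ (ι : Type) [Fintype ι] (c S : ℝ) (w : ι → ℂ), Ax c S w → rot c S w 1 = 1 ∧
    ∀ s : ℂ, s ≠ 0 → Orth (rot c S w s) ∧ (‖s‖ = 1 → Op1 (rot c S w s)) ∧
      (∀ s', s' ≠ 0 → rot c S w (s * s') = rot c S w s * rot c S w s') ∧
      rot c S w s = 1 + (s - 1) • Pp c S w + (s⁻¹ - 1) • Pm c S w
  bd : ∀ (ι : Type) [Fintype ι] (c₀ : ℝ), ∃ C : ℝ, 0 ≤ C ∧ ∀ (c S : ℝ) (w : ι → ℂ), Ax c S w →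
    c ≤ c₀ → ‖Pp c S w‖ ≤ C ∧ ‖Pm c S w‖ ≤ C ∧ ‖P0 c S w‖ ≤ C
  nrm : ∀ (ι : Type) [Fintype ι] (p w : ι → ℂ), 0 ≤ nsq p ∧ ‖p‖ ^ 2 ≤ nsq p ∧
    nsq p ≤ Fintype.card ι * ‖p‖ ^ 2 ∧ ‖ip p w‖ ^ 2 ≤ nsq p * nsq w ∧ (nsq p = 0 → p = 0) ∧
    ip p p = nsq p ∧ ∀ a : ℂ, nsq (a • p) = ‖a‖ ^ 2 * nsq p

/-- Stereographic coordinates. -/
def SQP : Prop := ∀ (ι : Type) [Fintype ι], ∀ x ∈ cone ι,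
  (∀ u ∈ Uc x, B (xp x u) (xp x u) = 0 ∧ xp x u ≠ 0 ∧
    (B (xp x u) (cj (xp x u))).re = 2 * rsq (Jm u) ∧ xp x (rp u) ∈ cone ι ∧
    (Jm u = 0 → rp u = u) ∧ ∀ c : ℂ, c • xp x u ∈ cone ι → Jm u = 0) ∧
  (∃ Jr : Uc x →L[ℝ] (ι ⊕ ι → ℝ), (∀ u, Jr u = Jm (u : V ι)) ∧
    ∀ η, Jr η = 0 → Jr (I • η) = 0 → η = 0) ∧
  xp x 0 = x ∧ rp (0 : V ι) = 0 ∧ (∀ u, AnalyticAt ℂ (xp x) u) ∧
  fderiv ℂ (xp x) 0 = ContinuousLinearMap.id ℂ _ ∧ ContDiff ℝ ∞ (rp : V ι → V ι) ∧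
  (∀ y, B x y = 0 → ∃ (a : ℂ), ∃ u ∈ Uc x, y = a • x + u) ∧
  ∀ (a : ℂ), ∀ u ∈ Uc x, a • x + u = 0 → a = 0 ∧ u = 0

/-- The sets `K` and `S`. -/
def SKC : Prop := ∀ (ι : Type) [Fintype ι] [Nonempty ι] (N : ℕ) (J δ : Type) [Fintype δ]
  (d : Data ι N J δ), d.Good → d.K.Nonempty ∧ Cone d.K ∧ Cone d.S ∧ d.K ⊆ d.S ∧
    IsClosed (d.K ∪ {0}) ∧ (∃ Z, Z ≠ 0 ∧ Z ∉ d.K) ∧
    ∀ k ∈ d.K, ∃ (r : ℝ) (γ : ℂ → E N), 0 < r ∧ DifferentiableOn ℂ γ (ball 0 r) ∧ γ 0 = k ∧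
      MapsTo γ (ball 0 r) d.K ∧ ∀ c : ℂ, deriv γ 0 ≠ c • k

/-- Charts. -/
def SCH : Prop := ∀ (ι : Type) [Fintype ι] (N : ℕ) (J δ : Type) [Fintype δ] (d : Data ι N J δ),
  d.Good → ∀ i, ∀ z₀ ∈ d.D i, ∀ x ∈ cone ι, ∃ W : Submodule ℂ (E N),
    d.Ψ i x W (z₀, 0, 0) = d.Φ i z₀ x ∧ AnalyticAt ℂ (d.Ψ i x W) (z₀, 0, 0) ∧
    (∃ inv : E N → ℂ × ℂ × Uc x × W, AnalyticAt ℂ inv (d.Φ i z₀ x) ∧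
      inv (d.Φ i z₀ x) = (1, z₀, 0, 0) ∧
      ∀ᶠ Z in 𝓝 (d.Φ i z₀ x), (inv Z).1 • d.Ψ i x W (inv Z).2 = Z) ∧
    (∀ᶠ p in 𝓝 ((z₀, 0, 0) : ℂ × Uc x × W), p.1 ∈ d.D i ∧ d.Ψ i x W p ≠ 0 ∧
      (∀ L, ∃ (a : ℂ) (v : ℂ × Uc x × W), L = a • d.Ψ i x W p + fderiv ℂ (d.Ψ i x W) p v) ∧
      (d.Ψ i x W p ∈ d.S ↔ p.2.2 = 0) ∧
      (d.Ψ i x W p ∈ d.K ↔ p.2.2 = 0 ∧ Jm (p.2.1 : V ι) = 0)) ∧
    ∀ w : W, (∀ Q, Quad d.S Q → Q (d.Φ i z₀ x) w + Q w (d.Φ i z₀ x) = 0) → w = 0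

/-- Global functions. -/
def SGL : Prop := ∀ (ι : Type) [Fintype ι] [Nonempty ι] (N : ℕ) (J δ : Type) [Fintype δ]
  (d : Data ι N J δ), d.Good → ∃ U A Y G, d.Glob U A Y G

/-- The local theorem in the ambient space. -/
def ST1 : Prop := ∀ (ι : Type) [Fintype ι] [Nonempty ι] (N : ℕ) (J δ β : Type) [Fintype δ]
  [Fintype β] (d : Data ι N J δ), d.Good → ∀ U A Y G, d.Glob U A Y G →
  ∀ Q : β → (E N →L[ℂ] E N →L[ℂ] ℂ), (∀ b, Quad d.S (Q b)) →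
  (∀ Q', Quad d.S Q' → Q' ∈ Submodule.span ℂ (range Q)) → ∀ i, ∀ z₀ ∈ d.D i, ∀ x ∈ cone ι,
    ∃ Λ₁ : ℝ, ∃ O ∈ 𝓝 (d.Φ i z₀ x), ∀ l₁ ≥ Λ₁, ∀ k ∈ d.K ∩ O, ∃ Λ : ℝ, ∀ᶠ Z in 𝓝 k,
      (Z ∉ d.K → 0 < Tz A Y Q l₁ Z) ∧
      ∀ l ≥ Λ, Psc (fun Z' => l * Tz A Y Q l₁ Z' - d.R G Z') Z

/-- The tube. -/
def STB : Prop := ∀ (ι : Type) [Fintype ι] [Nonempty ι] (N : ℕ) (J δ : Type) [Fintype δ]
  (d : Data ι N J δ), d.Good → ∃ ρ : E N → ℝ, Dom ρ ∧ Filled ρ d.K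

/-! ### The embedding -/

/-- The Veronese–Segre map. -/
structure SVL : Prop where
  eq : ∀ (α ε : Type) [Fintype α] [Fintype ε] (D : ℕ), 1 ≤ D → ∀ q q' : (α → ℂ) × (ε → ℂ),
    q.1 ≠ 0 → q.2 ≠ 0 → vs D q ≠ 0 ∧ (vs D q = vs D q' → ∃ c : ℂ, c ≠ 0 ∧ q.1 = c • q'.1) ∧
      AnalyticAt ℂ (vs (α := α) (ε := ε) D) q ∧
      (∀ dq, fderiv ℂ (vs D) q dq = 0 → ∃ a : ℂ, dq.1 = a • q.1) ∧
      (∀ y, fderiv ℂ (vs D) q (0, y) = vs D (q.1, y)) ∧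
      fderiv ℂ (vs D) q (q.1, 0) = (D : ℂ) • vs D q
  ker : ∀ (α ε : Type) [Fintype α] [Fintype ε] (D : ℕ), 1 ≤ D →
    ∀ (S : Set ((α → ℂ) × (ε → ℂ))), ∀ q₀ ∈ S, q₀.1 ≠ 0 → q₀.2 ≠ 0 →
    ∀ v : (Fin D → α) × ε → ℂ, (∀ Q, Quad (vs D '' S) Q → Q (vs D q₀) v + Q v (vs D q₀) = 0) →
    ∃ dq, v = fderiv ℂ (vs D) q₀ dq ∧
      (∀ d ≤ D, ∀ f₁ f₂ : MvPolynomial α ℂ, f₁.IsHomogeneous d → f₂.IsHomogeneous d →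
        ∀ l₁ l₂ : (ε → ℂ) →L[ℂ] ℂ,
        (∀ q ∈ S, MvPolynomial.eval q.1 f₁ * l₁ q.2 = MvPolynomial.eval q.1 f₂ * l₂ q.2) →
        fderiv ℂ (fun q : (α → ℂ) × (ε → ℂ) =>
          MvPolynomial.eval q.1 f₁ * l₁ q.2 - MvPolynomial.eval q.1 f₂ * l₂ q.2) q₀ dq = 0) ∧
      (∀ d ≤ D, ∀ f : MvPolynomial α ℂ, f.IsHomogeneous d →
        (∀ q ∈ S, MvPolynomial.eval q.1 f = 0) →
        fderiv ℂ (fun P : α → ℂ => MvPolynomial.eval P f) q₀.1 dq.1 = 0) ∧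
      ∀ Q : (ε → ℂ) →L[ℂ] (ε → ℂ) →L[ℂ] ℂ, (∀ q ∈ S, Q q.2 q.2 = 0) →
        Q q₀.2 dq.2 + Q dq.2 q₀.2 = 0

/-- The generalised Fermat curve. -/
def SCR : Prop := ∀ (m n : ℕ) [NeZero m], 2 ≤ m → 2 ≤ n →
  ∃ (α : Type) (_ : Fintype α) (Y : Set (α → ℂ)) (σ : Option (Fin m) → MvPolynomial α ℂ),
    CGood m n α Y σ

/-- A family of charts of the curve with frames. -/
structure Atlas {ι : Type} [Fintype ι] {m : ℕ} {ε wi α : Type} [Fintype ε] [Fintype wi] [Fintype α]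
    (Adm : (Option (Fin m) → ℂ) → (V ι →L[ℂ] (ε → ℂ)) → (V ι →L[ℂ] (wi → ℂ)) → (V ι → ℝ) → Prop)
    (Y : Set (α → ℂ)) (σ : Option (Fin m) → MvPolynomial α ℂ) {J : Type} (D : J → Set ℂ)
    (P : J → ℂ → α → ℂ) (e : J → ℂ → (V ι →L[ℂ] (ε → ℂ))) (w : J → ℂ → (V ι →L[ℂ] (wi → ℂ)))
    (φ : J → ℂ × V ι → ℝ) : Prop where
  op : ∀ i, IsOpen (D i)
  ne : ∃ i, (D i).Nonempty
  an : ∀ i, ∀ z ∈ D i, AnalyticAt ℂ (P i) z ∧ AnalyticAt ℂ (e i) z ∧ AnalyticAt ℂ (w i) z ∧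
    P i z ∈ Y ∧ Imm (P i) z ∧
    Adm (fun o => MvPolynomial.eval (P i z) (σ o)) (e i z) (w i z) (fun x => φ i (z, x)) ∧
    ∀ x ∈ cone ι, ContDiffAt ℝ ∞ (φ i) (z, x) ∧ lap (fun y => φ i (y, x)) z < 0
  cover : ∃ (s : Finset J) (D' : J → Set ℂ), (∀ j ∈ s, IsCompact (D' j) ∧ D' j ⊆ D j) ∧
    ∀ Q ∈ Y, ∃ j ∈ s, ∃ z' ∈ D' j, ∃ c : ℂ, c ≠ 0 ∧ Q = c • P j z'

def SV1 : Prop := ∀ (ι : Type) [Fintype ι] (m n : ℕ) [NeZero m] (ε wi α : Type) [Fintype ε]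
  [Fintype wi] [Fintype α]
  (Adm : (Option (Fin m) → ℂ) → (V ι →L[ℂ] (ε → ℂ)) → (V ι →L[ℂ] (wi → ℂ)) → (V ι → ℝ) → Prop)
  (Y : Set (α → ℂ)) (σ : Option (Fin m) → MvPolynomial α ℂ), XChart m n Adm → CGood m n α Y σ →
  ∃ (J : Type) (D : J → Set ℂ) (P : J → ℂ → α → ℂ) (e : J → ℂ → (V ι →L[ℂ] (ε → ℂ)))
    (w : J → ℂ → (V ι →L[ℂ] (wi → ℂ))) (φ : J → ℂ × V ι → ℝ), Atlas Adm Y σ D P e w φ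

/-- The kernel of the differentials of the quadrics, before the dummy coordinates are added. -/
def SV2 : Prop := ∀ (ι : Type) [Fintype ι] (m n : ℕ) [NeZero m] (ε wi α : Type) [Fintype ε]
  [Fintype wi] [Fintype α]
  (Adm : (Option (Fin m) → ℂ) → (V ι →L[ℂ] (ε → ℂ)) → (V ι →L[ℂ] (wi → ℂ)) → (V ι → ℝ) → Prop)
  (Y : Set (α → ℂ)) (σ : Option (Fin m) → MvPolynomial α ℂ), 1 ≤ n → XGood m n Adm →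
  CGood m n α Y σ → ∀ (J : Type) (D : J → Set ℂ) (P : J → ℂ → α → ℂ)
    (e : J → ℂ → (V ι →L[ℂ] (ε → ℂ))) (w : J → ℂ → (V ι →L[ℂ] (wi → ℂ))) (φ : J → ℂ × V ι → ℝ),
  Atlas Adm Y σ D P e w φ → ∀ i, ∀ z ∈ D i, ∀ x : V ι, x ≠ 0 → B x x = 0 →
    (∀ u, deriv (fun y => vs (8 * m * n) (P i y, e i y x)) z ≠ vs (8 * m * n) (P i z, e i z u)) ∧
    ∀ v, (∀ Q, Quad {Z | ∃ j, ∃ z' ∈ D j, ∃ x', x' ≠ 0 ∧ B x' x' = 0 ∧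
        Z = vs (8 * m * n) (P j z', e j z' x')} Q →
        Q (vs (8 * m * n) (P i z, e i z x)) v + Q v (vs (8 * m * n) (P i z, e i z x)) = 0) →
      ∃ (a : ℂ) (u : V ι), B x u = 0 ∧ v = a • deriv (fun y => vs (8 * m * n) (P i y, e i y x)) z +
        vs (8 * m * n) (P i z, e i z u)

/-- The data of the tube from the bundle and the curve. -/
def SVA : Prop := ∀ (ι : Type) [Fintype ι] [Nonempty ι] (m n : ℕ) [NeZero m] (ε wi α : Type)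
  [Fintype ε] [Fintype wi] [Fintype α]
  (Adm : (Option (Fin m) → ℂ) → (V ι →L[ℂ] (ε → ℂ)) → (V ι →L[ℂ] (wi → ℂ)) → (V ι → ℝ) → Prop)
  (Y : Set (α → ℂ)) (σ : Option (Fin m) → MvPolynomial α ℂ), 1 ≤ n → XGood m n Adm →
  CGood m n α Y σ →
  ∃ (N : ℕ) (J δ : Type) (_ : Fintype δ) (d : Data ι N J δ), 3 ≤ N ∧ d.Good

/-- Coordinates on the space of blocks. -/
def SXT : Prop := ∀ (ι : Type) [Fintype ι] (m n : ℕ) [NeZero m] (X₁ wi : Type)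
  [NormedAddCommGroup X₁] [NormedSpace ℂ X₁] [FiniteDimensional ℂ X₁] [Fintype wi]
  (Adm : (Option (Fin m) → ℂ) → (V ι →L[ℂ] X₁) → (V ι →L[ℂ] (wi → ℂ)) → (V ι → ℝ) → Prop),
  XGood m n Adm → ∃ (k : ℕ) (Adm' : (Option (Fin m) → ℂ) → (V ι →L[ℂ] (Fin k → ℂ)) →
    (V ι →L[ℂ] (wi → ℂ)) → (V ι → ℝ) → Prop), XGood m n Adm'

/-! ### Part 1: the representation and the frames -/

/-- The triangle relation. -/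
def SPR : Prop := ∀ (ι : Type) [Fintype ι] (c S : ℝ) (w : ι → ℂ) (a l : ℂ), Ax c S w → ‖a‖ = 1 →
  ‖l‖ = 1 → (1 - l ^ 2) * (a ^ 2 + 1) = c * (a ^ 2 - 1) * (1 + l ^ 2) →
  rot c S (l • w) (a ^ 2) * rot c S (-(l⁻¹ • w)) (a ^ 2) = rot 1 0 w (l⁻¹ ^ 4)

/-- Orthonormal bases with flat entries, and averages over signs. -/
def SHD : Prop := ∀ r : ℕ, 1 ≤ r → ∃ b : (Fin r → Bool) → Fin r → Fin r → ℂ,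
  (∀ ε l l', ip (b ε l) (b ε l') = if l = l' then 1 else 0) ∧
  (∀ ε p, ∑ l, ‖ip p (b ε l)‖ ^ 2 = nsq p) ∧ (∀ l, ∑ ε, b ε l = 0) ∧
  (∀ ε (s : ℂ), s ≠ 0 → (List.ofFn fun l => rot 1 0 (b ε l) s).prod = dg s) ∧
  ∀ l (t : ℝ) (p : Fin r → ℂ) (u : ℂ), nsq p = 1 → ‖u‖ = 1 →
    ∑ ε, Real.exp (t * (u * ip p (b ε l)).re) ≤ 2 ^ r * Real.exp (t ^ 2 / (2 * r))

def SRP : Prop := ∀ r : ℕ, 1 ≤ r → ∃ m : ℕ, r ≤ m ∧ ∀ᶠ n : ℕ in atTop,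
  ∃ (c S : ℝ) (om : Fin m → Fin r → ℂ), RepOK r m n c S om

/-- The Riemann–Hilbert problem with small data. -/
def SRH : Prop := ∀ (ι : Type) [Fintype ι] (R : ℝ), ∃ a₀ C : ℝ, 0 < a₀ ∧ 0 ≤ C ∧
  ∀ (A : ℂ → EV ι) (a : ℝ), ContDiff ℝ ∞ A → (∀ t, R ≤ ‖t‖ → A t = 0) → (∀ t, ‖A t‖ ≤ a) → a ≤ a₀ →
  ∃ F : ℂ → EV ι, Continuous F ∧ (∀ t, ‖F t - 1‖ ≤ C * a) ∧ Tendsto F (cocompact ℂ) (𝓝 1) ∧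
    ∀ (O : Set ℂ) (G : ℂ → EV ι), IsOpen O → ContDiffOn ℝ ∞ G O →
      (∀ t ∈ O, dbr G t = A t * G t) → DifferentiableOn ℂ (fun t => F t * G t) O

/-- The smooth multivalued gauge. -/
def SF1 : Prop := ∀ (r m : ℕ) [NeZero m], ∃ C : ℝ, 0 ≤ C ∧ ∀ᶠ n : ℕ in atTop,
  ∀ (c S : ℝ) (om : Fin m → Fin r → ℂ), RepOK r m n c S om → ∃ G₀ A : ℂ → EV (Fin r),
    ContDiff ℝ ∞ A ∧ (∀ t : ℂ, (m : ℝ) + 1 ≤ ‖t‖ → A t = 0) ∧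
    (∀ (j : Fin m) (t : ℂ), ‖t - tp j‖ < 1 / 3 → A t = 0) ∧ (∀ t, ‖A t‖ ≤ C / n) ∧
    (∀ t₀ : ℂ, (∀ j : Fin m, t₀ ≠ tp j) → IsUnit (G₀ t₀) ∧ ∃ (O : Set ℂ) (G : ℂ → EV (Fin r)),
      IsOpen O ∧ t₀ ∈ O ∧ ContDiffOn ℝ ∞ G O ∧
      ∀ t ∈ O, dbr G t = A t * G t ∧ ∃ g, Op1 g ∧ G t = G₀ t * g) ∧
    (∀ (j : Fin m) (s : ℂ), s ≠ 0 → ‖s ^ n‖ < 1 / 3 →
      ∃ g, Op1 g ∧ rot c S (om j) s = G₀ (tp j + s ^ n) * g) ∧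
    (∀ τ : ℂ, (m : ℝ) + 1 < ‖τ ^ n‖ → ∃ g, Op1 g ∧ dg (τ ^ (4 * m)) = G₀ (τ ^ n) * g) ∧
    ∀ t₀ : ℂ, (∀ j : Fin m, 1 / 4 ≤ ‖t₀ - tp j‖) → ‖t₀‖ ≤ m + 2 → ∃ G : ℂ → EV (Fin r),
      ContDiffOn ℝ ∞ G (ball t₀ (1 / 32)) ∧ ∀ t ∈ ball t₀ (1 / 32), dbr G t = A t * G t ∧
        (∃ g, Op1 g ∧ G t = G₀ t * g) ∧ ‖G t - 1‖ ≤ C / n

def SFR : Prop := ∀ (r m : ℕ) [NeZero m], ∃ C : ℝ, ∀ᶠ n : ℕ in atTop,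
  ∀ (c S : ℝ) (om : Fin m → Fin r → ℂ), RepOK r m n c S om →
    ∃ F Fi Fr, Frames r m n C c S om F Fi Fr

/-- No base points. -/
structure NV {r m : ℕ} [NeZero m] (n : ℕ) (c S : ℝ) (om : Fin m → Fin r → ℂ)
    (F : ℂ → EV (Fin r)) : Prop where
  cell : ∀ x ∈ cone (Fin r), ∀ (j : Fin m) (s : ℂ), s ≠ 0 → ‖s ^ n‖ < 1 / 4 →
    (F (tp j + s ^ n) (rot c S (om j) s x)).2.2 ≠ 0
  pole : ∀ j : Fin m, (F (tp j) (em c S (om j))).2.2 ≠ 0 ∧ ∀ x ∈ cone (Fin r),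
    B x (ep c S (om j)) = 0 → ∃ l k, mnr c S om F j (F (tp j) x).2.2 l k ≠ 0
  far : ∀ x ∈ cone (Fin r), ∀ τ : ℂ, (m : ℝ) + 2 < ‖τ ^ n‖ →
    (F (τ ^ n) (dg (τ ^ (4 * m)) x)).2.2 ≠ 0

def SNV : Prop := ∀ (r m : ℕ) [NeZero m] (C : ℝ), ∀ᶠ n : ℕ in atTop,
  ∀ (c S : ℝ) (om : Fin m → Fin r → ℂ) F Fi Fr, RepB r m c S om →
    Frames r m n C c S om F Fi Fr → NV n c S om F

/-! ### Part 2: the superharmonic weight -/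

/-- The harmonic extension. -/
def SC1 : Prop := ∃ h : ℂ × ℂ × ℂ → ℂ, ∀ (A : ℝ) (β : ℂ), ‖β‖ < A → ∀ s : ℂ, ‖s‖ ≤ 1 →
  AnalyticAt ℂ h ((A : ℂ), ((‖β‖ ^ 2 : ℝ) : ℂ), β * s) ∧
  (‖s‖ = 1 → (h ((A : ℂ), ((‖β‖ ^ 2 : ℝ) : ℂ), β * s)).re = ((A - (β * s).re) ^ 20)⁻¹)

/-- The boundary inequalities. -/
def SC2 : Prop := ∃ η C₀ : ℝ, 0 < η ∧ 0 ≤ C₀ ∧ ∀ c S a₁ a₂ co si α β : ℝ, c ^ 2 - S ^ 2 = 1 →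
  0 < c → 1 ≤ S → a₁ ^ 2 + a₂ ^ 2 ≤ 1 → co ^ 2 + si ^ 2 = 1 →
  α = 1 + (1 - co) * (S ^ 2 - c * S * a₁) → β = S * si * a₂ →
  1 / (4 * c ^ 2) ≤ α + β ∧ 1 / (4 * c ^ 2) ≤ α - β ∧
  2 * (1 - C₀ * c ^ 48 * (1 - co)) ≤ ((α + β) ^ 20)⁻¹ + ((α - β) ^ 20)⁻¹ ∧
  ((α + β) ^ 20)⁻¹ + ((α - β) ^ 20)⁻¹ ≤ 2 * (1 + C₀ * c ^ 48 * (1 - co)) ∧
  (a₁ ^ 2 + a₂ ^ 2 ≤ η ^ 2 → ((α + β) ^ 20)⁻¹ + ((α - β) ^ 20)⁻¹ ≤ 2 * (1 - (1 - co) / 8))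

def SCE : Prop := ∃ η C₀ : ℝ, 0 < η ∧ 0 ≤ C₀ ∧ ∀ (ι : Type) [Fintype ι] (c S : ℝ) (w : ι → ℂ),
  Ax c S w → 1 ≤ S → ∃ f, CellB c S w η (C₀ * c ^ 48) f

/-- The regularised minimum. -/
def SMN : Prop := ∀ e : ℝ, 0 < e → e < 1 → ∃ M : ℝ × ℝ → ℝ,
  (∀ a b : ℝ, 0 < a → 0 < b → ContDiffAt ℝ ∞ M (a, b) ∧ 0 < M (a, b) ∧
    (a ≤ (1 - e) * b → M (a, b) = a) ∧ ((1 + e) * b ≤ a → M (a, b) = b) ∧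
    ∀ l : ℝ, 0 < l → M (l * a, l * b) = l * M (a, b)) ∧
  ∀ (f g : ℂ → ℝ) (z : ℂ), ContDiffAt ℝ 2 f z → ContDiffAt ℝ 2 g z → 0 < f z → 0 < g z →
    lap f z < 0 → lap g z < 0 → lap (fun y => M (f y, g y)) z < 0

/-- Uniform bounds for `psi` and for the weighted function `psi / |p| ^ 20`. -/
def SPS : Prop := ∀ (r : ℕ) (l η Cs : ℝ), ∃ C : ℝ, 0 ≤ C ∧ ∀ (c S : ℝ) (w : Fin r → ℂ), Ax c S w →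
  c ≤ 4 * r + 1 → (∀ p, |psi l η Cs c S w p| ≤ C) ∧
    (∀ p, p ≠ 0 → ContDiffAt ℝ ∞ (psi l η Cs c S w) p ∧
      ∀ a : ℝ, 0 < a → psi l η Cs c S w ((a : ℂ) • p) = psi l η Cs c S w p) ∧
    (∀ p p', 1 / 4 ≤ nsq p → nsq p' = 1 →
      |psi l η Cs c S w p - psi l η Cs c S w p'| ≤ C * ‖p - p'‖) ∧
    ∀ p, 1 / 4 ≤ nsq p → nsq p ≤ 4 →
      ‖fderiv ℝ (fun q => (nsq q ^ 10)⁻¹ * psi l η Cs c S w q) p‖ ≤ C ∧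
      ‖fderiv ℝ (fderiv ℝ fun q => (nsq q ^ 10)⁻¹ * psi l η Cs c S w q) p‖ ≤ C

/-- The function on the hub. -/
def SHB : Prop := ∀ (r m : ℕ) (l η Cs K : ℝ),
  (∀ (n : ℕ) (c S : ℝ) (om : Fin m → Fin r → ℂ), RepB r m c S om → ∀ (t : ℂ) (p : Fin r → ℂ),
    (∀ j : Fin m, t ≠ tp j) → p ≠ 0 → ContDiffAt ℝ ∞ (phh n l η Cs K c S om) (t, p) ∧
      ∀ a : ℝ, 0 < a → a ^ 20 * phh n l η Cs K c S om (t, (a : ℂ) • p) =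
        phh n l η Cs K c S om (t, p)) ∧
  ∀ ϱ T C₁ : ℝ, 0 < ϱ → ∀ᶠ n : ℕ in atTop, ∀ (c S : ℝ) (om : Fin m → Fin r → ℂ), RepB r m c S om →
    (∀ (t : ℂ) (p : Fin r → ℂ), (∀ j : Fin m, ϱ ≤ ‖t - tp j‖) → ‖t‖ ≤ T → p ≠ 0 →
      0 < phh n l η Cs K c S om (t, p)) ∧
    ∀ (t : ℂ → ℂ) (p : ℂ → Fin r → ℂ) (z : ℂ), AnalyticAt ℂ t z → AnalyticAt ℂ p z →
      (∀ j : Fin m, ϱ ≤ ‖t z - tp j‖) → ‖t z‖ ≤ T → 1 / 4 ≤ nsq (p z) → nsq (p z) ≤ 4 →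
      deriv t z ≠ 0 → ‖deriv p z‖ ≤ C₁ / n * ‖deriv t z‖ →
        lap (fun y => phh n l η Cs K c S om (t y, p y)) z < 0

/-- Comparison at the two ends of the neck of a cell. -/
def SNC : Prop := ∀ (r m : ℕ) (l η Cs C : ℝ), 0 < η → 0 ≤ l → 0 ≤ Cs → ∃ K₀ : ℝ, ∀ K ≥ K₀,
  ∃ ϱ : ℝ, 0 < ϱ ∧ ϱ < 1 / 5 ∧ ∀ᶠ n : ℕ in atTop, ∀ (c S : ℝ) (om : Fin m → Fin r → ℂ)
    (F : ℂ → EV (Fin r)), RepB r m c S om → (∀ t, ‖F t - 1‖ ≤ C / n) →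
    ∀ (j : Fin m) (f : ℂ × V (Fin r) → ℝ), CellB c S (om j) η Cs f → ∀ x ∈ cone (Fin r), ∀ s : ℂ,
      (1 / 5 ≤ ‖s ^ n‖ → ‖s ^ n‖ ≤ 1 / 4 → (1 + 1 / (2 * n)) * phh n l η Cs K c S om
        (tp j + s ^ n, (F (tp j + s ^ n) (rot c S (om j) s x)).2.2) < f (s, x)) ∧
      (‖s ^ n‖ = ϱ → f (s, x) < (1 - 1 / (2 * n)) * phh n l η Cs K c S om
        (tp j + s ^ n, (F (tp j + s ^ n) (rot c S (om j) s x)).2.2))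

/-- Comparison at the two ends of the neck at infinity. -/
def SNI : Prop := ∀ (r m : ℕ) (l η Cs C : ℝ), 512 ≤ m → ∃ K₀ : ℝ, ∀ K ≥ K₀,
  ∃ T : ℝ, (m : ℝ) + 3 < T ∧ ∀ᶠ n : ℕ in atTop, ∀ (c S : ℝ) (om : Fin m → Fin r → ℂ)
    (F : ℂ → EV (Fin r)), RepB r m c S om → (∀ t, ‖F t - 1‖ ≤ C / n) →
    (∀ p : Fin r → ℂ, p ≠ 0 → (m : ℝ) / 64 ≤ 80 * m + ∑ j, psi l η Cs c S (om j) p) →
    ∀ x ∈ cone (Fin r), ∀ τ : ℂ,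
      ((m : ℝ) + 2 ≤ ‖τ ^ n‖ → ‖τ ^ n‖ ≤ m + 3 → (1 + 1 / (2 * n)) * phh n l η Cs K c S om
        (τ ^ n, (F (τ ^ n) (dg (τ ^ (4 * m)) x)).2.2) < phi0 (τ⁻¹, x)) ∧
      (‖τ ^ n‖ = T → phi0 (τ⁻¹, x) < (1 - 1 / (2 * n)) * phh n l η Cs K c S om
        (τ ^ n, (F (τ ^ n) (dg (τ ^ (4 * m)) x)).2.2))

/-- The projection of a flat section is almost constant. -/
def SDV : Prop := ∀ (r m : ℕ) (C ϱ T : ℝ), 0 < ϱ → ∃ C₁ : ℝ, ∀ᶠ n : ℕ in atTop,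
  ∀ (c S : ℝ) (om : Fin m → Fin r → ℂ) F Fi Fr, RepB r m c S om → Frames r m n C c S om F Fi Fr →
  ∀ x ∈ cone (Fin r),
    (∀ (j : Fin m) (s : ℂ), ϱ ≤ ‖s ^ n‖ → ‖s ^ n‖ < 1 / 4 → ∃ a : ℝ, 0 < a ∧
      ∀ p : ℂ → Fin r → ℂ,
        (p = fun y => (F (tp j + y ^ n) (rot c S (om j) y ((a : ℂ) • x))).2.2) →
        AnalyticAt ℂ p s ∧ 1 / 4 ≤ nsq (p s) ∧ nsq (p s) ≤ 4 ∧
          ‖deriv p s‖ ≤ C₁ / n * ‖(n : ℂ) * s ^ (n - 1)‖) ∧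
    (∀ τ : ℂ, (m : ℝ) + 2 < ‖τ ^ n‖ → ‖τ ^ n‖ ≤ T → ∃ a : ℝ, 0 < a ∧
      ∀ p : ℂ → Fin r → ℂ, (p = fun y => (F (y ^ n) (dg (y ^ (4 * m)) ((a : ℂ) • x))).2.2) →
        AnalyticAt ℂ p τ ∧ 1 / 4 ≤ nsq (p τ) ∧ nsq (p τ) ≤ 4 ∧
          ‖deriv p τ‖ ≤ C₁ / n * ‖(n : ℂ) * τ ^ (n - 1)‖) ∧
    ∀ (t₀ : ℂ) (Y : ℂ → EV (Fin r)),
      (∀ t ∈ ball t₀ (1 / 32), AnalyticAt ℂ Y t ∧ ‖Y t - 1‖ ≤ C / n) →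
      ∀ t ∈ ball t₀ (1 / 64), ∃ a : ℝ, 0 < a ∧
        ∀ p : ℂ → Fin r → ℂ, (p = fun y => (Y y ((a : ℂ) • x)).2.2) →
          AnalyticAt ℂ p t ∧ 1 / 4 ≤ nsq (p t) ∧ nsq (p t) ≤ 4 ∧ ‖deriv p t‖ ≤ C₁ / n

/-- The total slope is positive. -/
def SSM : Prop := ∀ η C₀ : ℝ, 0 < η → 0 ≤ C₀ → ∃ r₀ : ℕ, ∀ r ≥ r₀, ∀ (m n : ℕ) (c S : ℝ)
  (om : Fin m → Fin r → ℂ), RepOK r m n c S om → ∀ p : Fin r → ℂ, p ≠ 0 →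
    (m : ℝ) / 64 ≤ 80 * m + ∑ j, psi (r * η / 2) η (C₀ * (4 * r + 1) ^ 48) c S (om j) p

/-- Gluing along a neck, in one variable with parameters. `a` lives inside the circle of radius
`r₂`, `b` outside the circle of radius `r₁`. -/
def SGU : Prop := ∀ (ι : Type) [Fintype ι] (a b : ℂ × V ι → ℝ) (e r₁ r₂ r₃ : ℝ), 0 < e → e < 1 →
  0 < r₁ → r₁ < r₂ → r₂ < r₃ →
  (∀ s : ℂ, ‖s‖ < r₃ → ∀ x ∈ cone ι, ContDiffAt ℝ ∞ a (s, x) ∧ 0 < a (s, x) ∧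
    lap (fun y => a (y, x)) s < 0 ∧ ∀ l : ℝ, 0 < l → l ^ 20 * a (s, (l : ℂ) • x) = a (s, x)) →
  (∀ s : ℂ, r₁ ≤ ‖s‖ → ‖s‖ < r₃ → ∀ x ∈ cone ι, ContDiffAt ℝ ∞ b (s, x) ∧ 0 < b (s, x) ∧
    lap (fun y => b (y, x)) s < 0 ∧ ∀ l : ℝ, 0 < l → l ^ 20 * b (s, (l : ℂ) • x) = b (s, x)) →
  (∀ s : ℂ, ‖s‖ = r₁ → ∀ x ∈ cone ι, a (s, x) < (1 - e) * b (s, x)) →
  (∀ s : ℂ, r₂ ≤ ‖s‖ → ‖s‖ < r₃ → ∀ x ∈ cone ι, (1 + e) * b (s, x) < a (s, x)) →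
  ∃ f : ℂ × V ι → ℝ, (∀ s : ℂ, ‖s‖ < r₃ → ∀ x ∈ cone ι, ContDiffAt ℝ ∞ f (s, x) ∧ 0 < f (s, x) ∧
    lap (fun y => f (y, x)) s < 0 ∧ ∀ l : ℝ, 0 < l → l ^ 20 * f (s, (l : ℂ) • x) = f (s, x)) ∧
    ∀ s : ℂ, r₂ ≤ ‖s‖ → ‖s‖ < r₃ → ∀ x ∈ cone ι, f (s, x) = b (s, x)

def SPH : Prop := ∃ r₀ : ℕ, ∀ r ≥ r₀, ∀ (m : ℕ) [NeZero m], r ≤ m → ∀ C : ℝ, ∀ᶠ n : ℕ in atTop,
  ∀ (c S : ℝ) (om : Fin m → Fin r → ℂ) F Fi Fr, RepOK r m n c S om →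
    Frames r m n C c S om F Fi Fr → ∃ fc fi fh, PhiB r m n c S om F Fr fc fi fh

/-! ### The blocks -/

/-- Points of the curve; uniqueness from a base block. -/
def SXU : Prop := ∀ (r m n : ℕ) [NeZero m], 1 ≤ n → ∀ s ∈ XX m n,
  (s none = 0 → ∀ j, s (some j) ≠ 0) ∧
  (∀ j, s (some j) = 0 → s none ≠ 0 ∧ ∀ i, i ≠ j → s (some i) ≠ 0) ∧
  (s none ≠ 0 → ∀ j, tp j + (s (some j) / s none) ^ n = (s (some 0) / s none) ^ n) ∧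
  (∀ a : ℂ, a ≠ 0 → a • s ∈ XX m n) ∧
  ∀ (c S : ℝ) (om : Fin m → Fin r → ℂ) (F : ℂ → EV (Fin r)), (∀ j, Ax c S (om j)) →
    (∀ j : Fin m, Orth (F (tp j))) →
    (∀ e, RelE c S om F s e →
      ((s none ≠ 0 ∧ (∀ j, s (some j) ≠ 0) ∧ e none = 0) ∨
        (∃ j, s (some j) = 0 ∧ e (some (some j)) = 0) ∨ (s none = 0 ∧ e (some none) = 0)) → e = 0) ∧
    (∀ w, RelW c S om F s 0 w → w = 0) ∧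
    (∀ e e' (a : ℂ), RelE c S om F s e → RelE c S om F s e' → RelE c S om F s (e - a • e')) ∧
    (∀ e w e' w' (a : ℂ), RelW c S om F s e w → RelW c S om F s e' w' →
      RelW c S om F s (e - a • e') (w - a • w')) ∧
    ∀ a : ℂ, a ≠ 0 → (∀ e, RelE c S om F (a • s) e → RelE c S om F s e) ∧
      ∀ e w, RelW c S om F (a • s) e w → RelW c S om F s e (a ^ (8 * m) • w)

def SXA : Prop := ∀ (r m n : ℕ) [NeZero m] (C c S : ℝ) (om : Fin m → Fin r → ℂ) F Fi Fr fc fi fh,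
  1 ≤ n → RepB r m c S om → Frames r m n C c S om F Fi Fr → PhiB r m n c S om F Fr fc fi fh →
    XCompat m n (Adm n c S om F Fr fc fi fh)

def SXB : Prop := ∀ (r m n : ℕ) [NeZero m] (C c S : ℝ) (om : Fin m → Fin r → ℂ) F Fi Fr fc fi fh,
  1 ≤ n → RepB r m c S om → Frames r m n C c S om F Fi Fr →
    XInj m n (Adm n c S om F Fr fc fi fh) ∧ XRel m n (Adm n c S om F Fr fc fi fh) ∧
      XQuad m n (Adm n c S om F Fr fc fi fh)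

def SXP : Prop := ∀ (r m n : ℕ) [NeZero m] (C c S : ℝ) (om : Fin m → Fin r → ℂ) F Fi Fr fc fi fh,
  1 ≤ n → RepB r m c S om → Frames r m n C c S om F Fi Fr → PhiB r m n c S om F Fr fc fi fh →
    NV n c S om F → XPos m n (Adm n c S om F Fr fc fi fh)

/-- The conclusion of `XChart`. -/
def XCh {r m : ℕ} [NeZero m]
    (Ad : (Option (Fin m) → ℂ) → (V (Fin r) →L[ℂ] (Bk m → V (Fin r))) →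
      (V (Fin r) →L[ℂ] (Wi r m → ℂ)) → (V (Fin r) → ℝ) → Prop)
    (s : ℂ → Option (Fin m) → ℂ) (z₀ : ℂ) : Prop :=
  ∃ (e : ℂ → (V (Fin r) →L[ℂ] (Bk m → V (Fin r)))) (w : ℂ → (V (Fin r) →L[ℂ] (Wi r m → ℂ)))
    (φ : ℂ × V (Fin r) → ℝ), AnalyticAt ℂ e z₀ ∧ AnalyticAt ℂ w z₀ ∧ ∀ᶠ z in 𝓝 z₀,
      Ad (s z) (e z) (w z) (fun x => φ (z, x)) ∧ ∀ x ∈ cone (Fin r), ContDiffAt ℝ ∞ φ (z, x) ∧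
        lap (fun y => φ (y, x)) z < 0

/-- Completion of the block `A` to all blocks where no coordinate vanishes, and the derivatives
of the local coordinates along an immersed germ. -/
def SX0 : Prop := ∀ (r m n : ℕ) [NeZero m], 1 ≤ n → ∀ (s : ℂ → Option (Fin m) → ℂ) (z₀ : ℂ),
  AnalyticAt ℂ s z₀ → (∀ᶠ z in 𝓝 z₀, s z ∈ XX m n) → Imm s z₀ →
  (∀ j, s z₀ none ≠ 0 → (∀ i, i ≠ j → s z₀ (some i) ≠ 0) →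
    ∀ᶠ z in 𝓝 z₀, deriv (fun y => s y (some j) / s y none) z ≠ 0) ∧
  ((∀ i, s z₀ (some i) ≠ 0) → ∀ᶠ z in 𝓝 z₀, deriv (fun y => s y none / s y (some 0)) z ≠ 0) ∧
  ∀ (c S : ℝ) (om : Fin m → Fin r → ℂ) (F : ℂ → EV (Fin r)), (∀ j, Ax c S (om j)) →
    (∀ j : Fin m, Orth (F (tp j))) → (∀ o, s z₀ o ≠ 0) → ∀ A : ℂ → EV (Fin r), AnalyticAt ℂ A z₀ →
    ∃ (e : ℂ → (V (Fin r) →L[ℂ] (Bk m → V (Fin r)))) (w : ℂ → (V (Fin r) →L[ℂ] (Wi r m → ℂ))),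
      AnalyticAt ℂ e z₀ ∧ AnalyticAt ℂ w z₀ ∧ ∀ᶠ z in 𝓝 z₀, ∀ x, e z x none = A z x ∧
        RelE c S om F (s z) (e z x) ∧ RelW c S om F (s z) (e z x) (w z x)

/-- Charts at points where no coordinate vanishes. -/
def SX1 : Prop := ∀ (r m n : ℕ) [NeZero m] (C c S : ℝ) (om : Fin m → Fin r → ℂ) F Fi Fr fc fi fh,
  1 ≤ n → RepB r m c S om → Frames r m n C c S om F Fi Fr → PhiB r m n c S om F Fr fc fi fh →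
  ∀ (s : ℂ → Option (Fin m) → ℂ) (z₀ : ℂ), AnalyticAt ℂ s z₀ → (∀ᶠ z in 𝓝 z₀, s z ∈ XX m n) →
    Imm s z₀ → (∀ o, s z₀ o ≠ 0) → XCh (Adm n c S om F Fr fc fi fh) s z₀

/-- Charts at the poles. -/
def SX2 : Prop := ∀ (r m n : ℕ) [NeZero m] (C c S : ℝ) (om : Fin m → Fin r → ℂ) F Fi Fr fc fi fh,
  3 ≤ n → RepB r m c S om → Frames r m n C c S om F Fi Fr → PhiB r m n c S om F Fr fc fi fh →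
  ∀ (s : ℂ → Option (Fin m) → ℂ) (z₀ : ℂ), AnalyticAt ℂ s z₀ → (∀ᶠ z in 𝓝 z₀, s z ∈ XX m n) →
    Imm s z₀ → ∀ j, s z₀ (some j) = 0 → XCh (Adm n c S om F Fr fc fi fh) s z₀

/-- Charts at infinity. -/
def SX3 : Prop := ∀ (r m n : ℕ) [NeZero m] (C c S : ℝ) (om : Fin m → Fin r → ℂ) F Fi Fr fc fi fh,
  8 * m + 1 ≤ n → RepB r m c S om → Frames r m n C c S om F Fi Fr →
  PhiB r m n c S om F Fr fc fi fh →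
  ∀ (s : ℂ → Option (Fin m) → ℂ) (z₀ : ℂ), AnalyticAt ℂ s z₀ → (∀ᶠ z in 𝓝 z₀, s z ∈ XX m n) →
    Imm s z₀ → s z₀ none = 0 → XCh (Adm n c S om F Fr fc fi fh) s z₀

end Pool.Agent.MP_fcd29e_an.H11
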