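import Pool.Agent.MP_fcd29e_an.H11.CM0

/-!
The data of the tube can be placed in any larger projective space; the main theorem in all large
dimensions.
-/

set_option autoImplicit false

open Filter Pool.Agent.MP_fcd29e_an.H81 Pool.Agent.MP_fcd29e_an.H31

namespace Pool.Agent.MP_fcd29e_an.H11

theorem up_maps {N N' : ℕ} (h : N ≤ N') : ∃ (a : E N →L[ℂ] E N') (b : E N' →L[ℂ] E N),
    ∀ v, b (a v) = v := by
  have h' : Module.finrank ℂ (E N) ≤ Module.finrank ℂ (E N') := by simpa using h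
  obtain ⟨a, ha⟩ := (finrank_le_iff_exists_linearMap (R := ℂ)).1 h'
  obtain ⟨b, hb⟩ := a.exists_leftInverse_of_injective (LinearMap.ker_eq_bot.2 ha)
  exact ⟨LinearMap.toContinuousLinearMap a, LinearMap.toContinuousLinearMap b,
    fun v => LinearMap.congr_fun hb v⟩

/-- The data, moved by a linear embedding. -/
noncomputable def Data.up {ι : Type} [Fintype ι] {N N' : ℕ} {J δ : Type} (d : Data ι N J δ)
    (a : E N →L[ℂ] E N') (b : E N' →L[ℂ] E N) : Data ι N' J δ :=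
  ⟨d.D, fun i z => a.comp (d.Φ i z), d.Γ, d.g, d.φ, d.w2, fun e => (d.ζ e).comp b⟩

theorem up_good {ι : Type} [Fintype ι] {N N' : ℕ} {J δ : Type} [Fintype δ] {d : Data ι N J δ}
    (hd : d.Good) (a : E N →L[ℂ] E N') (b : E N' →L[ℂ] E N) (hab : ∀ v, b (a v) = v) :
    (d.up a b).Good := by
  have ha : Function.Injective a := Function.LeftInverse.injective hab
  have hE : ∀ i z j z', d.Eqv i z j z' → (d.up a b).Eqv i z j z' := by
    rintro i z j z' ⟨c, G, hc, hG, h1, h2⟩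
    refine ⟨c, G, hc, hG, fun v => ?_, h2⟩
    change a (d.Φ i z v) = c • a (d.Φ j z' (G v))
    rw [h1, map_smul]
  have hD : ∀ i, ∀ z ∈ d.D i, ∀ x, deriv ((d.up a b).Φ i) z x = a (deriv (d.Φ i) z x) := by
    intro i z hz x
    have h1 := (hd.hΦ i z hz).differentiableAt.hasDerivAt
    have h2 := ((ContinuousLinearMap.compL ℂ (V ι) (E N) (E N') a).hasFDerivAt.comp_hasDerivAt z
      h1).deriv
    have h3 : (d.up a b).Φ i = ContinuousLinearMap.compL ℂ (V ι) (E N) (E N') a ∘ d.Φ i := rfl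
    rw [h3, h2]
    rfl
  refine ⟨hd.op, hd.ne, fun i z hz => ?_, hd.hΓ, hd.hg, hd.hφ, hd.hw, hd.hom, ?_, ?_, ?_, ?_, ?_,
    ?_, ?_, hd.p3, hd.p1⟩
  · exact ((ContinuousLinearMap.compL ℂ (V ι) (E N) (E N') a).analyticAt _).comp (hd.hΦ i z hz)
  · intro i j z hz z' hz' x x' h0 h1 h2 h3
    exact hE _ _ _ _ (hd.compat i j z hz z' hz' x x' h0 h1 h2 (ha h3))
  · obtain ⟨s, D', h1, h2⟩ := hd.cover
    refine ⟨s, D', h1, fun i z hz => ?_⟩
    obtain ⟨j, hj, z', hz', h⟩ := h2 i z hz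
    exact ⟨j, hj, z', hz', hE _ _ _ _ h⟩
  · exact fun i z hz => ha.comp (hd.inj i z hz)
  · intro i z hz x hx v h
    rw [hD i z hz] at h
    exact hd.imm i z hz x hx v (ha h)
  · intro i z hz x hx v hv
    have hx0 : x ≠ 0 := by
      rintro rfl
      exact lt_irrefl _ hx.2.2
    have hZ : a (d.Φ i z x) ≠ 0 := fun h => hx0 (hd.inj i z hz (ha (by rw [h, map_zero, map_zero])))
    have hv1 : v = a (b v) := by
      by_contra hne
      obtain ⟨l₁, h₁⟩ := SeparatingDual.exists_ne_zero (R := ℂ) (sub_ne_zero.2 hne)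
      obtain ⟨l₂, h₂⟩ := SeparatingDual.exists_ne_zero (R := ℂ) hZ
      have := hv ((l₁.comp (1 - a.comp b)).smulRight l₂) (by
        rintro Z ⟨j, y, -, w, -, -, rfl⟩
        change l₁ (a (d.Φ j y w) - a (b (a (d.Φ j y w)))) * l₂ _ = 0
        rw [hab, sub_self, map_zero, zero_mul])
      change l₁ (a (d.Φ i z x) - a (b (a (d.Φ i z x)))) * l₂ v +
        l₁ (v - a (b v)) * l₂ (a (d.Φ i z x)) = 0 at this
      rw [hab, sub_self, map_zero, zero_mul, zero_add] at this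
      exact mul_ne_zero h₁ h₂ this
    obtain ⟨c, u, hu, h⟩ := hd.ker i z hz x hx (b v) (fun Q hQ => by
      have := hv (Q.bilinearComp b b) (by
        rintro Z ⟨j, y, hy, w, hw, hB, rfl⟩
        change Q (b (a (d.Φ j y w))) (b (a (d.Φ j y w))) = 0
        rw [hab]
        exact hQ _ ⟨j, y, hy, w, hw, hB, rfl⟩)
      change Q (b (a (d.Φ i z x))) (b v) + Q (b v) (b (a (d.Φ i z x))) = 0 at this
      rwa [hab] at this)
    refine ⟨c, u, hu, ?_⟩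
    rw [hD i z hz, hv1, h, map_add, map_smul]
    rfl
  · intro e i z hz v
    change d.ζ e (b (a (d.Φ i z v))) = 0
    rw [hab, hd.hζ e i z hz]
  · intro i z hz x hx
    obtain ⟨v, hv⟩ := hd.nz i z hz x hx
    refine ⟨a v, ?_⟩
    change ∑ e, d.Γ i e (z, x) * d.ζ e (b (a v)) ≠ 0
    rwa [hab]

theorem main1 (hP : SP0) (hTB : STB) (hVA : SVA) (hXT : SXT) (hCR : SCR) (hRP : SRP) (hFR : SFR)
    (hPH : SPH) (hNV : SNV) (hXA : SXA) (hXB : SXB) (hXP : SXP) (h1 : SX1) (h2 : SX2) (h3 : SX3) :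
    ∃ n₀ : ℕ, ∀ n ≥ n₀, ∃ ρ : E (n + 1) → ℝ, Dom ρ ∧ IsConnected (Om ρ) ∧
      ∀ s : ℝ, n + 1 < s → ∃ p, p + 1 ≤ n ∧ ¬ VanishR ρ s (p + 1) p := by
  obtain ⟨r, m, n, _, hr, hm, hn, Ad, hX⟩ := xgood hRP hFR hPH hNV hXA hXB hXP h1 h2 h3
  obtain ⟨k, Ad', hX'⟩ := hXT _ m n _ _ Ad hX
  obtain ⟨α, _, Y, σ, hY⟩ := hCR m n hm hn
  have : Nonempty (Fin r) := ⟨⟨0, hr⟩⟩
  obtain ⟨N, J, δ, _, d, -, hd⟩ := hVA _ m n _ _ α Ad' Y σ (by omega) hX' hY
  refine ⟨N, fun N' hN' => ?_⟩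
  obtain ⟨a, b, hab⟩ := up_maps (show N ≤ N' + 1 by omega)
  obtain ⟨ρ, hρ, hK⟩ := hTB _ _ J δ _ (up_good hd a b hab)
  obtain ⟨ρ₀, h₀, hc, hs⟩ := hP _ ρ _ hρ hK
  refine ⟨ρ₀, h₀, hc, fun s hs' => ?_⟩
  obtain ⟨p, hp, h⟩ := hs s (by push_cast; exact hs')
  exact ⟨p, by omega, h⟩

end Pool.Agent.MP_fcd29e_an.H11
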